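import Pool.Agent.Helper30.GL4.Loc2

/-!
# Counting the elements with fixed points
-/

set_option autoImplicit false

namespace GL4.H30

open Module Submodule GL4

variable {F : Type} [Field F] {V : Type} [AddCommGroup V] [Module F V]

section two

variable (h2 : finrank F V = 2)
include h2

open Classical in
/-- the counting identities -/
theorem counting [Finite F] [Fintype (V ≃ₗ[F] V)] {X : Subgroup (V ≃ₗ[F] V)}
    (hZ : ∀ a : Fˣ, (sc a : V ≃ₗ[F] V) ∈ X) (hT : PtTrans X) {P0 : Submodule F V} (hP0 : Pt P0)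
    {N1 N2 : ℕ} (hN1 : Nat.card {g : V ≃ₗ[F] V // g ∈ X ∧ Rat g P0 1} = N1)
    (hN2 : Nat.card {g : V ≃ₗ[F] V // g ∈ X ∧ im g P0 = P0} = N2) :
    Nat.card X = (Nat.card F + 1) * N2 ∧
    ∃ n1 n2 : ℕ, (Nat.card F + 1) * N1 = n1 + (Nat.card F + 1) * (Nat.card F - 1) ∧
      (Nat.card F + 1) * N2 = (Nat.card F + 1) * N1 + 2 * n2 ∧
      Nat.card X = (Nat.card F - 1) + n1 + n2 +
        (Finset.univ.filter (fun g : V ≃ₗ[F] V => g ∈ X ∧ NS g)).card := by
  have hfin : FiniteDimensional F V := FiniteDimensional.of_finrank_pos (by omega)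
  have hnt : Nontrivial V := by
    rw [← finrank_pos_iff (R := F)]; omega
  have : Fintype (Submodule F V) := Fintype.ofFinite _
  set XF : Finset (V ≃ₗ[F] V) := Finset.univ.filter (· ∈ X) with hXF
  have hmXF : ∀ g, g ∈ XF ↔ g ∈ X := fun g => by simp [hXF]
  have hcX : Nat.card X = XF.card := by
    have h3 : Nat.card X = Nat.card {g : V ≃ₗ[F] V // g ∈ X} := rfl
    rw [h3, Nat.card_eq_fintype_card, Fintype.card_subtype]
  set Pts : Finset (Submodule F V) := Finset.univ.filter Pt with hPts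
  have hmPts : ∀ P, P ∈ Pts ↔ Pt P := fun P => by simp [hPts]
  have hcPts : Pts.card = Nat.card F + 1 := by
    have h3 := card_pts (F := F) (V := V)
    rw [Nat.card_eq_fintype_card, Fintype.card_subtype, h2] at h3
    rw [hPts, h3]
    simp [br, Finset.sum_range_succ]
    ring
  -- the fibres have the same size for all points
  have hN1' : ∀ P, Pt P → (XF.filter (fun g => Rat g P 1)).card = N1 := by
    intro P hP
    obtain ⟨x, hx, hxP⟩ := hT P0 P hP0 hP
    have h3 : (XF.filter (fun g => Rat g P0 1)).card = N1 := by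
      rw [← hN1, Nat.card_eq_fintype_card, Fintype.card_subtype, hXF, Finset.filter_filter]
    rw [← h3]
    symm
    refine Finset.card_bij (fun g _ => x * g * x⁻¹) ?_ ?_ ?_
    · intro g hg
      rw [Finset.mem_filter, hmXF] at hg ⊢
      exact ⟨X.mul_mem (X.mul_mem hx hg.1) (X.inv_mem hx), hxP ▸ hg.2.conj x⟩
    · intro g _ g' _ h
      exact mul_left_cancel (mul_right_cancel h)
    · intro g hg
      rw [Finset.mem_filter, hmXF] at hg
      refine ⟨x⁻¹ * g * x, ?_, by group⟩
      rw [Finset.mem_filter, hmXF]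
      refine ⟨X.mul_mem (X.mul_mem (X.inv_mem hx) hg.1) hx, ?_⟩
      have h4 := hg.2.conj x⁻¹
      rw [inv_inv, im_inv_of_eq hxP] at h4
      exact h4
  have hN2' : ∀ P, Pt P → (XF.filter (fun g => im g P = P)).card = N2 := by
    intro P hP
    obtain ⟨x, hx, hxP⟩ := hT P0 P hP0 hP
    have h3 : (XF.filter (fun g => im g P0 = P0)).card = N2 := by
      rw [← hN2, Nat.card_eq_fintype_card, Fintype.card_subtype, hXF, Finset.filter_filter]
    rw [← h3]
    symm
    have hx' := im_inv_of_eq hxP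
    refine Finset.card_bij (fun g _ => x * g * x⁻¹) ?_ ?_ ?_
    · intro g hg
      rw [Finset.mem_filter, hmXF] at hg ⊢
      refine ⟨X.mul_mem (X.mul_mem hx hg.1) (X.inv_mem hx), ?_⟩
      rw [im_mul, im_mul, hx', hg.2, hxP]
    · intro g _ g' _ h
      exact mul_left_cancel (mul_right_cancel h)
    · intro g hg
      rw [Finset.mem_filter, hmXF] at hg
      refine ⟨x⁻¹ * g * x, ?_, by group⟩
      rw [Finset.mem_filter, hmXF]
      refine ⟨X.mul_mem (X.mul_mem (X.inv_mem hx) hg.1) hx, ?_⟩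
      rw [im_mul, im_mul, hxP, hg.2, hx']
  -- orbit-stabiliser
  have hE4 : Nat.card X = (Nat.card F + 1) * N2 := by
    rw [hcX, ← hcPts]
    rw [Finset.card_eq_sum_card_fiberwise (f := fun g => im g P0) (t := Pts)
      (fun g _ => (hmPts _).2 hP0.im)]
    rw [Finset.sum_const_nat (m := N2)]
    intro P hP
    rw [hmPts] at hP
    obtain ⟨x, hx, hxP⟩ := hT P0 P hP0 hP
    rw [← hN2' P0 hP0]
    symm
    refine Finset.card_bij (fun g _ => x * g) ?_ ?_ ?_
    · intro g hg
      rw [Finset.mem_filter, hmXF] at hg ⊢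
      exact ⟨X.mul_mem hx hg.1, by rw [im_mul, hg.2, hxP]⟩
    · intro g _ g' _ h
      exact mul_left_cancel h
    · intro g hg
      rw [Finset.mem_filter, hmXF] at hg
      refine ⟨x⁻¹ * g, ?_, by group⟩
      rw [Finset.mem_filter, hmXF]
      exact ⟨X.mul_mem (X.inv_mem hx) hg.1, by rw [im_mul, hg.2, im_inv_of_eq hxP]⟩
  refine ⟨hE4, ?_⟩
  -- the classes
  set S1 : Finset (V ≃ₗ[F] V) := XF.filter (fun g => ¬ Sc g ∧ ∃ P, Pt P ∧ Rat g P 1) with hS1
  set S2 : Finset (V ≃ₗ[F] V) := XF.filter (fun g => ∃ P, Pt P ∧ im g P = P ∧ ¬ Rat g P 1) with hS2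
  set SZ : Finset (V ≃ₗ[F] V) := XF.filter (fun g => Sc g) with hSZ
  have hcSZ : SZ.card = Nat.card F - 1 := by
    have h3 : Nat.card Fˣ = Nat.card F - 1 := by
      have := Fintype.ofFinite F
      rw [Nat.card_units]
    have := Fintype.ofFinite Fˣ
    rw [← h3, Nat.card_eq_fintype_card, ← Finset.card_univ]
    symm
    refine Finset.card_bij (fun a _ => (sc a : V ≃ₗ[F] V)) ?_ ?_ ?_
    · intro a _
      rw [hSZ, Finset.mem_filter, hmXF]
      exact ⟨hZ a, (a : F), fun v => rfl⟩
    · intro a _ b _ h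
      obtain ⟨v, hv⟩ := exists_ne (0 : V)
      have h4 := DFunLike.congr_fun h v
      rw [sc_apply, sc_apply] at h4
      exact Units.ext (smul_left_injective F hv h4)
    · intro g hg
      rw [hSZ, Finset.mem_filter, hmXF] at hg
      obtain ⟨-, a, ha⟩ := hg
      have ha0 : a ≠ 0 := by
        rintro rfl
        obtain ⟨v, hv⟩ := exists_ne (0 : V)
        have h4 := ha v
        rw [zero_smul] at h4
        exact hv ((map_eq_zero_iff g g.injective).1 h4)
      exact ⟨Units.mk0 a ha0, Finset.mem_univ _, LinearEquiv.ext fun v => (ha v).symm⟩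
  refine ⟨S1.card, S2.card, ?_, ?_, ?_⟩
  · -- E1
    have h3 : ∀ P ∈ Pts, (XF.filter (fun g => Rat g P 1)).card =
        (S1.filter (fun g => Rat g P 1)).card + SZ.card := by
      intro P hP
      rw [hmPts] at hP
      rw [← Finset.card_union_of_disjoint]
      · congr 1
        ext g
        simp only [hS1, hSZ, Finset.mem_union, Finset.mem_filter]
        constructor
        · rintro ⟨hg, hr⟩
          by_cases hs : Sc g
          · exact Or.inr ⟨hg, hs⟩
          · exact Or.inl ⟨⟨hg, hs, P, hP, hr⟩, hr⟩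
        · rintro (⟨⟨hg, _⟩, hr⟩ | ⟨hg, hs⟩)
          · exact ⟨hg, hr⟩
          · exact ⟨hg, hs.rat hP⟩
      · rw [Finset.disjoint_left]
        intro g hg hg'
        simp only [hS1, hSZ, Finset.mem_filter] at hg hg'
        exact hg.1.2.1 hg'.2
    have h4 : ∑ P ∈ Pts, (S1.filter (fun g => Rat g P 1)).card = S1.card := by
      have h5 := Finset.sum_card_bipartiteAbove_eq_sum_card_bipartiteBelow (s := Pts) (t := S1)
        (fun P g => Rat g P 1)
      simp only [Finset.bipartiteAbove, Finset.bipartiteBelow] at h5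
      rw [h5, Finset.sum_const_nat (m := 1), mul_one]
      intro g hg
      rw [hS1, Finset.mem_filter] at hg
      obtain ⟨_, hs, P, hP, hr⟩ := hg
      rw [Finset.card_eq_one]
      refine ⟨P, ?_⟩
      ext Q
      rw [Finset.mem_filter, Finset.mem_singleton, hmPts]
      constructor
      · rintro ⟨hQ, hQr⟩
        by_contra hne
        exact hs (Rat.scalar h2 hP hQ (Ne.symm hne) hr (hQr.im_eq hQ))
      · rintro rfl
        exact ⟨hP, hr⟩
    have h5 : ∑ P ∈ Pts, (XF.filter (fun g => Rat g P 1)).card = Pts.card * N1 :=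
      Finset.sum_const_nat (fun P hP => hN1' P ((hmPts P).1 hP))
    rw [Finset.sum_congr rfl h3, Finset.sum_add_distrib, h4, Finset.sum_const, hcSZ, hcPts,
      smul_eq_mul] at h5
    exact h5.symm
  · -- E2
    have h3 : ∀ P ∈ Pts, (XF.filter (fun g => im g P = P)).card =
        (XF.filter (fun g => Rat g P 1)).card + (S2.filter (fun g => im g P = P)).card := by
      intro P hP
      rw [hmPts] at hP
      rw [← Finset.card_union_of_disjoint]
      · congr 1
        ext g
        simp only [hS2, Finset.mem_union, Finset.mem_filter]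
        constructor
        · rintro ⟨hg, hr⟩
          by_cases hs : Rat g P 1
          · exact Or.inl ⟨hg, hs⟩
          · exact Or.inr ⟨⟨hg, P, hP, hr, hs⟩, hr⟩
        · rintro (⟨hg, hr⟩ | ⟨⟨hg, hs⟩, hr⟩)
          · exact ⟨hg, hr.im_eq hP⟩
          · exact ⟨hg, hr⟩
      · rw [Finset.disjoint_left]
        intro g hg hg'
        simp only [hS2, Finset.mem_filter] at hg hg'
        obtain ⟨⟨_, Q, hQ, hQf, hQr⟩, _⟩ := hg'
        by_cases hPQ : P = Q
        · subst hPQ
          exact hQr hg.2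
        · exact hQr ((Rat.scalar h2 hP hQ hPQ hg.2 hQf).rat hQ)
    have h4 : ∑ P ∈ Pts, (S2.filter (fun g => im g P = P)).card = S2.card * 2 := by
      have h5 := Finset.sum_card_bipartiteAbove_eq_sum_card_bipartiteBelow (s := Pts) (t := S2)
        (fun P g => im g P = P)
      simp only [Finset.bipartiteAbove, Finset.bipartiteBelow] at h5
      rw [h5, Finset.sum_const_nat (m := 2)]
      intro g hg
      rw [hS2, Finset.mem_filter] at hg
      obtain ⟨_, P, hP, hPf, hr⟩ := hg
      obtain ⟨r, hr'⟩ := exists_rat h2 hP hPf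
      have hr1 : r ≠ 1 := fun h => hr (h ▸ hr')
      obtain ⟨Q, hQ, hQP, hQf, hall⟩ := Rat.second h2 hP hr1 hr'
      rw [Finset.card_eq_two]
      refine ⟨P, Q, Ne.symm hQP, ?_⟩
      ext R
      rw [Finset.mem_filter, hmPts, Finset.mem_insert, Finset.mem_singleton]
      constructor
      · rintro ⟨hR, hRf⟩
        exact hall R hR hRf
      · rintro (rfl | rfl)
        · exact ⟨hP, hPf⟩
        · exact ⟨hQ, hQf⟩
    have h5 : ∑ P ∈ Pts, (XF.filter (fun g => im g P = P)).card = Pts.card * N2 :=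
      Finset.sum_const_nat (fun P hP => hN2' P ((hmPts P).1 hP))
    have h6 : ∑ P ∈ Pts, (XF.filter (fun g => Rat g P 1)).card = Pts.card * N1 :=
      Finset.sum_const_nat (fun P hP => hN1' P ((hmPts P).1 hP))
    rw [Finset.sum_congr rfl h3, Finset.sum_add_distrib, h4, h6, hcPts] at h5
    rw [← h5, mul_comm 2]
  · -- E3
    rw [hcX, ← hcSZ, hSZ, hS1, hS2]
    have h3 : (Finset.univ.filter (fun g : V ≃ₗ[F] V => g ∈ X ∧ NS g)) = XF.filter NS := by
      rw [hXF, Finset.filter_filter]
    have c1 : (XF.filter (fun g => Sc g)).card = ∑ g ∈ XF, if Sc g then 1 else 0 :=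
      Finset.card_filter _ _
    have c2 : (XF.filter (fun g => ¬ Sc g ∧ ∃ P, Pt P ∧ Rat g P 1)).card =
        ∑ g ∈ XF, if ¬ Sc g ∧ ∃ P, Pt P ∧ Rat g P 1 then 1 else 0 := Finset.card_filter _ _
    have c3 : (XF.filter (fun g => ∃ P, Pt P ∧ im g P = P ∧ ¬ Rat g P 1)).card =
        ∑ g ∈ XF, if ∃ P, Pt P ∧ im g P = P ∧ ¬ Rat g P 1 then 1 else 0 :=
      Finset.card_filter _ _
    have c4 : (XF.filter NS).card = ∑ g ∈ XF, if NS g then 1 else 0 := Finset.card_filter _ _
    rw [h3, c1, c2, c3, c4,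
      ← Finset.sum_add_distrib, ← Finset.sum_add_distrib, ← Finset.sum_add_distrib,
      Finset.card_eq_sum_ones XF]
    refine Finset.sum_congr rfl (fun g _ => ?_)
    by_cases hns : NS g
    · have e1 : ¬ Sc g := hns.not_sc
      have e2 : ¬ (¬ Sc g ∧ ∃ P, Pt P ∧ Rat g P 1) := by
        rintro ⟨-, P, hP, hr⟩
        exact hns P hP (hr.im_eq hP)
      have e3 : ¬ ∃ P, Pt P ∧ im g P = P ∧ ¬ Rat g P 1 := by
        rintro ⟨P, hP, hr, -⟩
        exact hns P hP hr
      rw [if_neg e1, if_neg e2, if_neg e3, if_pos hns]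
    · rw [if_neg hns]
      by_cases hs : Sc g
      · have e2 : ¬ (¬ Sc g ∧ ∃ P, Pt P ∧ Rat g P 1) := fun h => h.1 hs
        have e3 : ¬ ∃ P, Pt P ∧ im g P = P ∧ ¬ Rat g P 1 := by
          rintro ⟨P, hP, -, hr⟩
          exact hr (hs.rat hP)
        rw [if_pos hs, if_neg e2, if_neg e3]
      · rw [if_neg hs]
        by_cases h4 : ∃ P, Pt P ∧ Rat g P 1
        · have e3 : ¬ ∃ P, Pt P ∧ im g P = P ∧ ¬ Rat g P 1 := by
            rintro ⟨Q, hQ, hQf, hr⟩
            obtain ⟨P, hP, hPr⟩ := h4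
            by_cases hPQ : P = Q
            · subst hPQ; exact hr hPr
            · exact hs (Rat.scalar h2 hP hQ hPQ hPr hQf)
          rw [if_pos ⟨hs, h4⟩, if_neg e3]
        · have e3 : ∃ P, Pt P ∧ im g P = P ∧ ¬ Rat g P 1 := by
            unfold NS at hns
            push Not at hns
            obtain ⟨P, hP, hPf⟩ := hns
            exact ⟨P, hP, hPf, fun h => h4 ⟨P, hP, h⟩⟩
          rw [if_neg (fun h => h4 h.2), if_pos e3]

end two

end GL4.H30
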