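import Pool.Agent.Helper79.GL4.GoalsA

/-!
# Geometry of linear automorphisms of a two-dimensional space
-/

set_option autoImplicit false

namespace GL4.H30

open Module Submodule GL4

variable {F : Type} [Field F] {V : Type} [AddCommGroup V] [Module F V]

/-- `g` fixes the point `P` with ratio `r` -/
def Rat (g : V ≃ₗ[F] V) (P : Submodule F V) (r : F) : Prop :=
  ∃ a b : F, b ≠ 0 ∧ (∀ v ∈ P, g v = a • v) ∧ (∀ v, g v - b • v ∈ P) ∧ r = a / b

/-- `g` is a scalar -/
def Sc (g : V ≃ₗ[F] V) : Prop := ∃ a : F, ∀ v, g v = a • v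

/-- `g` fixes no point -/
def NS (g : V ≃ₗ[F] V) : Prop := ∀ P : Submodule F V, Pt P → im g P ≠ P

theorem isRatio_iff {K : Subgroup (V ≃ₗ[F] V)} {P : Submodule F V} {r : F} :
    IsRatio K P r ↔ ∃ k ∈ K, Rat k P r := Iff.rfl

theorem conj_apply (x g : V ≃ₗ[F] V) (v : V) : (x * g * x⁻¹) (x v) = x (g v) := by
  simp [LinearEquiv.mul_apply]

theorem inv_apply_apply (x : V ≃ₗ[F] V) (v : V) : x⁻¹ (x v) = v := by
  rw [← LinearEquiv.mul_apply]; simp

theorem apply_inv_apply (x : V ≃ₗ[F] V) (v : V) : x (x⁻¹ v) = v := by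
  rw [← LinearEquiv.mul_apply]; simp

theorem Rat.conj {g : V ≃ₗ[F] V} {P : Submodule F V} {r : F} (h : Rat g P r) (x : V ≃ₗ[F] V) :
    Rat (x * g * x⁻¹) (im x P) r := by
  obtain ⟨a, b, hb, h1, h2, h3⟩ := h
  refine ⟨a, b, hb, ?_, ?_, h3⟩
  · rintro _ ⟨v, hv, rfl⟩
    have : ((x : V →ₗ[F] V) v) = x v := rfl
    rw [this, conj_apply, h1 v hv, map_smul]
  · intro v
    obtain ⟨w, rfl⟩ : ∃ w, x w = v := ⟨x⁻¹ v, apply_inv_apply x v⟩
    rw [conj_apply]
    refine ⟨g w - b • w, h2 w, ?_⟩
    have : ((x : V →ₗ[F] V) (g w - b • w)) = x (g w - b • w) := rfl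
    rw [this, map_sub, map_smul]

/-- an eigenvector gives a fixed point -/
theorem im_span_eq {g : V ≃ₗ[F] V} {v : V} {a : F} (hv : v ≠ 0) (h : g v = a • v) :
    im g (F ∙ v) = F ∙ v := by
  have ha : a ≠ 0 := by
    rintro rfl
    rw [zero_smul] at h
    exact hv ((map_eq_zero_iff g g.injective).1 h)
  rw [im_span_singleton, h]
  exact Submodule.span_singleton_smul_eq (IsUnit.mk0 a ha) v

theorem exists_eig {g : V ≃ₗ[F] V} {P : Submodule F V} (hP : Pt P) (h : im g P = P) :
    ∃ a : F, a ≠ 0 ∧ ∀ v ∈ P, g v = a • v := by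
  obtain ⟨e, he, rfl⟩ := hP.exists_span
  have h1 : g e ∈ F ∙ e := by
    rw [← h]
    exact apply_mem_im (mem_span_singleton_self e)
  obtain ⟨a, ha⟩ := mem_span_singleton.1 h1
  refine ⟨a, ?_, ?_⟩
  · rintro rfl
    rw [zero_smul] at ha
    exact he ((map_eq_zero_iff g g.injective).1 ha.symm)
  · intro v hv
    obtain ⟨c, rfl⟩ := mem_span_singleton.1 hv
    rw [map_smul, ← ha, smul_comm]

theorem im_eq_of_eig {g : V ≃ₗ[F] V} {P : Submodule F V} (hP : Pt P) {a : F}
    (h : ∀ v ∈ P, g v = a • v) : im g P = P := by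
  obtain ⟨e, he, rfl⟩ := hP.exists_span
  exact im_span_eq he (h e (mem_span_singleton_self e))

theorem Rat.im_eq {g : V ≃ₗ[F] V} {P : Submodule F V} (hP : Pt P) {r : F} (h : Rat g P r) :
    im g P = P := by
  obtain ⟨a, b, hb, h1, h2, h3⟩ := h
  exact im_eq_of_eig hP h1

section two
variable (h2 : finrank F V = 2)
include h2

theorem pt_hy {P : Submodule F V} (hP : Pt P) : Hy P := by
  rw [Hy, h2, hP]

/-- decomposition of a vector -/
theorem decomp {e u : V} (he : e ≠ 0) (hu : u ∉ F ∙ e) (w : V) :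
    ∃ a b : F, w = a • e + b • u := by
  have : FiniteDimensional F V := FiniteDimensional.of_finrank_pos (by omega)
  have h3 : (F ∙ e) ⊔ (F ∙ u) = ⊤ := by
    refine (pt_hy h2 (pt_span he)).sup_pt (fun h => hu ?_)
    exact h (mem_span_singleton_self u)
  have h4 : w ∈ (F ∙ e) ⊔ (F ∙ u) := by rw [h3]; exact mem_top
  obtain ⟨x, hx, y, hy, rfl⟩ := mem_sup.1 h4
  obtain ⟨a, rfl⟩ := mem_span_singleton.1 hx
  obtain ⟨b, rfl⟩ := mem_span_singleton.1 hy
  exact ⟨a, b, rfl⟩

theorem exists_notMem {P : Submodule F V} (hP : Pt P) : ∃ u, u ∉ P := by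
  have : FiniteDimensional F V := FiniteDimensional.of_finrank_pos (by omega)
  by_contra hc
  push Not at hc
  exact (pt_hy h2 hP).ne_top (eq_top_iff.2 fun v _ => hc v)

theorem exists_rat {g : V ≃ₗ[F] V} {P : Submodule F V} (hP : Pt P) (h : im g P = P) :
    ∃ r, Rat g P r := by
  obtain ⟨a, ha, h1⟩ := exists_eig hP h
  obtain ⟨e, he, rfl⟩ := hP.exists_span
  obtain ⟨u, hu⟩ := exists_notMem h2 hP
  obtain ⟨s, b, hb⟩ := decomp h2 he hu (g u)
  have he' : g e = a • e := h1 e (mem_span_singleton_self e)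
  refine ⟨a / b, a, b, ?_, h1, ?_, rfl⟩
  · rintro rfl
    rw [zero_smul, add_zero] at hb
    apply hu
    have h3 : g u = g ((s / a) • e) := by
      rw [hb, map_smul, he', smul_smul, div_mul_cancel₀ _ ha]
    rw [g.injective h3]
    exact smul_mem _ _ (mem_span_singleton_self e)
  · intro v
    obtain ⟨x, y, rfl⟩ := decomp h2 he hu v
    have h3 : g (x • e + y • u) - b • (x • e + y • u) = (x * a + y * s - b * x) • e := by
      rw [map_add, map_smul, map_smul, he', hb]
      module
    rw [h3]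
    exact smul_mem _ _ (mem_span_singleton_self e)

theorem Rat.unique_aux {g : V ≃ₗ[F] V} {P : Submodule F V} (hP : Pt P) {a b a' b' : F}
    (h1 : ∀ v ∈ P, g v = a • v) (h3 : ∀ v, g v - b • v ∈ P)
    (h1' : ∀ v ∈ P, g v = a' • v) (h3' : ∀ v, g v - b' • v ∈ P) : a = a' ∧ b = b' := by
  constructor
  · obtain ⟨e, he, rfl⟩ := hP.exists_span
    have h4 := h1 e (mem_span_singleton_self e)
    rw [h1' e (mem_span_singleton_self e)] at h4
    exact (smul_left_injective F he h4).symm
  · obtain ⟨u, hu⟩ := exists_notMem h2 hP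
    by_contra hne
    apply hu
    have h4 := P.sub_mem (h3' u) (h3 u)
    have h5 : (g u - b' • u) - (g u - b • u) = (b - b') • u := by module
    rw [h5] at h4
    exact (P.smul_mem_iff (sub_ne_zero.2 hne)).1 h4

theorem Rat.unique {g : V ≃ₗ[F] V} {P : Submodule F V} (hP : Pt P) {r r' : F} (h : Rat g P r)
    (h' : Rat g P r') : r = r' := by
  obtain ⟨a, b, hb, h1, h3, rfl⟩ := h
  obtain ⟨a', b', hb', h1', h3', rfl⟩ := h'
  obtain ⟨rfl, rfl⟩ := Rat.unique_aux h2 hP h1 h3 h1' h3'
  rfl

omit h2 in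
theorem Rat.mul {g h : V ≃ₗ[F] V} {P : Submodule F V} {r s : F}
    (hg : Rat g P r) (hh : Rat h P s) : Rat (g * h) P (r * s) := by
  obtain ⟨a, b, hb, h1, h3, rfl⟩ := hg
  obtain ⟨a', b', hb', h1', h3', rfl⟩ := hh
  refine ⟨a * a', b * b', mul_ne_zero hb hb', fun v hv => ?_, fun v => ?_, by ring_nf⟩
  · rw [LinearEquiv.mul_apply, h1' v hv, map_smul, h1 v hv, smul_smul, mul_comm]
  · rw [LinearEquiv.mul_apply]
    have h4 : g (h v) - (b * b') • v = (g (h v - b' • v)) + b' • (g v - b • v) := by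
      rw [map_sub, map_smul]
      module
    rw [h4]
    refine P.add_mem ?_ (P.smul_mem _ (h3 v))
    rw [h1 _ (h3' v)]
    exact P.smul_mem _ (h3' v)

omit h2 in
theorem Rat.ne_zero {g : V ≃ₗ[F] V} {P : Submodule F V} (hP : Pt P) {r : F}
    (h : Rat g P r) : r ≠ 0 := by
  obtain ⟨a, b, hb, h1, h3, rfl⟩ := h
  refine div_ne_zero ?_ hb
  rintro rfl
  obtain ⟨e, he, rfl⟩ := hP.exists_span
  have h4 := h1 e (mem_span_singleton_self e)
  rw [zero_smul] at h4
  exact he ((map_eq_zero_iff g g.injective).1 h4)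

omit h2 in
theorem Sc.rat {g : V ≃ₗ[F] V} (hg : Sc g) {P : Submodule F V} (hP : Pt P) : Rat g P 1 := by
  obtain ⟨a, ha⟩ := hg
  have ha0 : a ≠ 0 := by
    rintro rfl
    obtain ⟨e, he, rfl⟩ := hP.exists_span
    have h4 := ha e
    rw [zero_smul] at h4
    exact he ((map_eq_zero_iff g g.injective).1 h4)
  exact ⟨a, a, ha0, fun v _ => ha v, fun v => by rw [ha]; simp, (div_self ha0).symm⟩

/-- two different fixed points with a vector decomposition -/
theorem rat_two {g : V ≃ₗ[F] V} {P Q : Submodule F V} (hP : Pt P) (hQ : Pt Q) (hPQ : P ≠ Q)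
    {a c : F} (hPa : ∀ v ∈ P, g v = a • v) (hQc : ∀ v ∈ Q, g v = c • v) (hc : c ≠ 0) :
    Rat g P (a / c) := by
  obtain ⟨e, he, rfl⟩ := hP.exists_span
  obtain ⟨u, hu0, rfl⟩ := hQ.exists_span
  have hu : u ∉ F ∙ e := by
    intro h
    apply hPQ
    have h3 : F ∙ u ≤ F ∙ e := by
      rw [span_singleton_le_iff_mem]; exact h
    exact (hQ.eq_of_le hP h3).symm
  refine ⟨a, c, hc, hPa, fun v => ?_, rfl⟩
  obtain ⟨x, y, rfl⟩ := decomp h2 he hu v
  have h3 : g (x • e + y • u) - c • (x • e + y • u) = (x * a - c * x) • e := by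
    rw [map_add, map_smul, map_smul, hPa e (mem_span_singleton_self e),
      hQc u (mem_span_singleton_self u)]
    module
  rw [h3]
  exact smul_mem _ _ (mem_span_singleton_self e)

/-- ratio one and a second fixed point: scalar -/
theorem Rat.scalar {g : V ≃ₗ[F] V} {P Q : Submodule F V} (hP : Pt P) (hQ : Pt Q) (hPQ : P ≠ Q)
    (h : Rat g P 1) (hq : im g Q = Q) : Sc g := by
  obtain ⟨a, b, hb, h1, h3, h4⟩ := h
  have hab : a = b := by
    rw [eq_div_iff hb] at h4
    rw [← h4, one_mul]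
  subst hab
  obtain ⟨c, hc, hQc⟩ := exists_eig hQ hq
  have h5 := rat_two h2 hP hQ hPQ h1 hQc hc
  have h6 := Rat.unique h2 hP h5 ⟨a, a, hb, h1, h3, rfl⟩
  have hac : a = c := by
    rw [div_self hb, div_eq_one_iff_eq hc] at h6
    exact h6
  refine ⟨a, fun v => ?_⟩
  obtain ⟨e, he, rfl⟩ := hP.exists_span
  obtain ⟨u, hu0, rfl⟩ := hQ.exists_span
  have hu : u ∉ F ∙ e := by
    intro h
    apply hPQ
    have h3 : F ∙ u ≤ F ∙ e := by
      rw [span_singleton_le_iff_mem]; exact h
    exact (hQ.eq_of_le hP h3).symm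
  obtain ⟨x, y, rfl⟩ := decomp h2 he hu v
  rw [map_add, map_smul, map_smul, h1 e (mem_span_singleton_self e),
      hQc u (mem_span_singleton_self u), ← hac]
  module

/-- ratio different from one: exactly one further fixed point -/
theorem Rat.second {g : V ≃ₗ[F] V} {P : Submodule F V} (hP : Pt P) {r : F} (hr : r ≠ 1)
    (h : Rat g P r) : ∃ Q : Submodule F V, Pt Q ∧ Q ≠ P ∧ im g Q = Q ∧
      ∀ R : Submodule F V, Pt R → im g R = R → R = P ∨ R = Q := by
  obtain ⟨a, b, hb, h1, h3, rfl⟩ := h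
  have hab : a ≠ b := fun h => hr (by rw [h, div_self hb])
  obtain ⟨u, hu⟩ := exists_notMem h2 hP
  have hPmem := h3 u
  obtain ⟨e, he, rfl⟩ := hP.exists_span
  obtain ⟨s, hs⟩ := mem_span_singleton.1 hPmem
  have he' : g e = a • e := h1 e (mem_span_singleton_self e)
  have hgu : g u = b • u + s • e := by rw [hs]; module
  -- the second eigenvector
  have hba : b - a ≠ 0 := sub_ne_zero.2 (Ne.symm hab)
  set u' := u + (s / (b - a)) • e with hu'
  have hu'n : u' ∉ F ∙ e := by
    intro h
    apply hu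
    have h5 : u = u' - (s / (b - a)) • e := by rw [hu']; module
    rw [h5]
    exact Submodule.sub_mem _ h (smul_mem _ _ (mem_span_singleton_self e))
  have hu'0 : u' ≠ 0 := fun h => hu'n (by rw [h]; exact zero_mem _)
  have hgu' : g u' = b • u' := by
    have h6 : g u' = b • u + (s + (s / (b - a)) * a) • e := by
      rw [hu', map_add, map_smul, hgu, he']
      module
    have h7 : s + s / (b - a) * a = b * (s / (b - a)) := by
      field_simp
      ring
    rw [h6, h7, hu']
    module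
  refine ⟨F ∙ u', pt_span hu'0, ?_, im_span_eq hu'0 hgu', ?_⟩
  · intro h
    apply hu'n
    rw [← h]
    exact mem_span_singleton_self u'
  · intro R hR hgR
    obtain ⟨c, hc, hRc⟩ := exists_eig hR hgR
    obtain ⟨v, hv, rfl⟩ := hR.exists_span
    have hgv := hRc v (mem_span_singleton_self v)
    obtain ⟨x, y, hxy⟩ := decomp h2 he hu'n v
    have h8 : (x * (a - c)) • e + (y * (b - c)) • u' = 0 := by
      have h9 : g v - c • v = 0 := by rw [hgv, sub_self]
      rw [← h9, hxy, map_add, map_smul, map_smul, he', hgu']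
      module
    have hind : ∀ α β : F, α • e + β • u' = 0 → α = 0 ∧ β = 0 := by
      intro α β hαβ
      have hβ : β = 0 := by
        by_contra hβ
        apply hu'n
        have h10 : u' = (-(α / β)) • e := by
          have h11 : β • u' = (-α) • e := by
            rw [← sub_eq_zero, ← hαβ]; module
          have h12 : u' = β⁻¹ • (β • u') := by rw [smul_smul, inv_mul_cancel₀ hβ, one_smul]
          rw [h12, h11, smul_smul]
          congr 1
          field_simp
        rw [h10]
        exact smul_mem _ _ (mem_span_singleton_self e)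
      subst hβ
      rw [zero_smul, add_zero] at hαβ
      exact ⟨(smul_eq_zero.1 hαβ).resolve_right he, rfl⟩
    obtain ⟨h13, h14⟩ := hind _ _ h8
    by_cases hy : y = 0
    · left
      rw [hy, zero_smul, add_zero] at hxy
      have hx : x ≠ 0 := by
        rintro rfl
        rw [zero_smul] at hxy
        exact hv hxy
      rw [hxy]
      exact span_singleton_smul_eq (IsUnit.mk0 x hx) e
    · right
      have hbc : b - c = 0 := (mul_eq_zero.1 h14).resolve_left hy
      have hac : a - c ≠ 0 := by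
        intro h
        apply hab
        rw [sub_eq_zero] at h hbc
        rw [h, hbc]
      have hx : x = 0 := (mul_eq_zero.1 h13).resolve_right hac
      rw [hx, zero_smul, zero_add] at hxy
      rw [hxy]
      exact span_singleton_smul_eq (IsUnit.mk0 y hy) u'

/-! ### elements without fixed points -/

omit h2 in
theorem NS.conj {g : V ≃ₗ[F] V} (hg : NS g) (x : V ≃ₗ[F] V) : NS (x * g * x⁻¹) := by
  intro P hP h
  apply hg (im x⁻¹ P) hP.im
  have h3 := congrArg (im x⁻¹) h
  rw [im_mul, im_mul, im_inv_im] at h3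
  exact h3

omit h2 in
theorem NS.not_mem {g : V ≃ₗ[F] V} (hg : NS g) {v : V} (hv : v ≠ 0) : g v ∉ F ∙ v := by
  intro h
  obtain ⟨a, ha⟩ := mem_span_singleton.1 h
  exact hg _ (pt_span hv) (im_span_eq hv ha.symm)

omit h2 in
theorem NS.not_sc [Nontrivial V] {g : V ≃ₗ[F] V} (hg : NS g) : ¬ Sc g := by
  rintro ⟨a, ha⟩
  obtain ⟨v, hv⟩ := exists_ne (0 : V)
  apply hg.not_mem hv
  rw [ha]
  exact smul_mem _ _ (mem_span_singleton_self v)

/-- an element commuting with an element without fixed points is a polynomial in it -/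
theorem NS.poly [Nontrivial V] {g h : V ≃ₗ[F] V} (hg : NS g) (hc : Commute h g) :
    ∃ a b : F, ∀ v, h v = a • v + b • g v := by
  obtain ⟨v, hv⟩ := exists_ne (0 : V)
  have h3 := hg.not_mem hv
  obtain ⟨a, b, hab⟩ := decomp h2 hv h3 (h v)
  refine ⟨a, b, fun w => ?_⟩
  obtain ⟨x, y, rfl⟩ := decomp h2 hv h3 w
  have h4 : h (g v) = g (h v) := by
    rw [← LinearEquiv.mul_apply, ← LinearEquiv.mul_apply, hc.eq]
  rw [map_add, map_smul, map_smul, h4, hab, map_add, map_smul, map_smul, map_add, map_smul,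
    map_smul]
  module

theorem NS.comm_trans [Nontrivial V] {m h k : V ≃ₗ[F] V} (hm : NS m) (h1 : Commute h m)
    (h3 : Commute k m) : Commute h k := by
  obtain ⟨a, b, hab⟩ := hm.poly h2 h1
  obtain ⟨c, d, hcd⟩ := hm.poly h2 h3
  apply LinearEquiv.ext
  intro v
  rw [LinearEquiv.mul_apply, LinearEquiv.mul_apply, hab, hcd, hcd, hab]
  simp only [map_add, map_smul]
  module

/-- a nonscalar element commuting with an element without fixed points has no fixed points -/
theorem NS.of_comm [Nontrivial V] {g h : V ≃ₗ[F] V} (hg : NS g) (hc : Commute h g)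
    (hs : ¬ Sc h) : NS h := by
  obtain ⟨a, b, hab⟩ := hg.poly h2 hc
  intro P hP hPh
  obtain ⟨c, hc0, hPc⟩ := exists_eig hP hPh
  obtain ⟨e, he, rfl⟩ := hP.exists_span
  have h3 := hPc e (mem_span_singleton_self e)
  rw [hab] at h3
  have hb : b = 0 := by
    by_contra hb
    apply hg.not_mem he
    rw [mem_span_singleton]
    refine ⟨(c - a) / b, ?_⟩
    have h4 : b • g e = (c - a) • e := by
      have : b • g e = (a • e + b • g e) - a • e := by module
      rw [this, h3]; module
    have h5 : g e = b⁻¹ • (b • g e) := by rw [smul_smul, inv_mul_cancel₀ hb, one_smul]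
    rw [h5, h4, smul_smul]
    congr 1
    field_simp
  apply hs
  refine ⟨a, fun v => ?_⟩
  rw [hab, hb, zero_smul, add_zero]

/-- quadratic equation -/
theorem NS.quad [Nontrivial V] {g : V ≃ₗ[F] V} (hg : NS g) :
    ∃ τ δ : F, ∀ v, g (g v) = τ • g v + δ • v := by
  obtain ⟨v, hv⟩ := exists_ne (0 : V)
  have h3 := hg.not_mem hv
  obtain ⟨a, b, hab⟩ := decomp h2 hv h3 (g (g v))
  refine ⟨b, a, fun w => ?_⟩
  obtain ⟨x, y, rfl⟩ := decomp h2 hv h3 w
  rw [map_add, map_smul, map_smul, map_add, map_smul, map_smul, hab]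
  simp only [map_add, map_smul]
  rw [hab]
  module

/-- the conjugates of `g` commuting with `g`: at most two -/
theorem NS.conj_two [Nontrivial V] {g x y : V ≃ₗ[F] V} (hg : NS g)
    (hx : Commute (x * g * x⁻¹) g) (hx' : x * g * x⁻¹ ≠ g) (hy : Commute (y * g * y⁻¹) g)
    (hy' : y * g * y⁻¹ ≠ g) : x * g * x⁻¹ = y * g * y⁻¹ := by
  obtain ⟨τ, δ, hq⟩ := hg.quad h2
  -- a conjugate different from `g` which commutes with `g` is `τ - g`
  have key : ∀ z : V ≃ₗ[F] V, Commute (z * g * z⁻¹) g → z * g * z⁻¹ ≠ g →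
      ∀ v, (z * g * z⁻¹) v = τ • v - g v := by
    intro z hz hz'
    set h := z * g * z⁻¹ with hh
    have hqh : ∀ v, h (h v) = τ • h v + δ • v := by
      intro v
      obtain ⟨w, rfl⟩ : ∃ w, z w = v := ⟨z⁻¹ v, apply_inv_apply z v⟩
      rw [hh, conj_apply, conj_apply, hq]
      simp only [map_add, map_smul]
    obtain ⟨a, b, hab⟩ := hg.poly h2 hz
    -- (h - g)(h + g - τ) = 0
    have hcom : ∀ v, h (g v) = g (h v) := by
      intro v
      rw [← LinearEquiv.mul_apply, ← LinearEquiv.mul_apply, hz.eq]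
    have hprod : ∀ v, h (h v + g v - τ • v) = g (h v + g v - τ • v) := by
      intro v
      simp only [map_add, map_sub, map_smul]
      rw [hqh, hq, hcom]
      module
    intro v
    by_contra hne
    -- u = h v + g v - τ v is nonzero, and h u = g u
    have hu : h v + g v - τ • v ≠ 0 := by
      intro h0
      apply hne
      have : h v = (h v + g v - τ • v) + (τ • v - g v) := by module
      rw [this, h0, zero_add]
    have h3 := hprod v
    set u := h v + g v - τ • v with hu'
    rw [hab] at h3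
    -- a u + (b - 1) g u = 0
    have h4 : a • u + (b - 1) • g u = 0 := by
      have : a • u + (b - 1) • g u = (a • u + b • g u) - g u := by module
      rw [this, h3, sub_self]
    have hb1 : b - 1 = 0 := by
      by_contra hb
      apply hg.not_mem hu
      rw [mem_span_singleton]
      refine ⟨-a / (b - 1), ?_⟩
      have h5 : (b - 1) • g u = (-a) • u := by
        rw [← sub_eq_zero, ← h4]; module
      have h6 : g u = (b - 1)⁻¹ • ((b - 1) • g u) := by
        rw [smul_smul, inv_mul_cancel₀ hb, one_smul]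
      rw [h6, h5, smul_smul]
      congr 1
      field_simp
    rw [hb1, zero_smul, add_zero] at h4
    have ha : a = 0 := (smul_eq_zero.1 h4).resolve_right hu
    apply hz'
    apply LinearEquiv.ext
    intro w
    rw [hab, ha, sub_eq_zero.1 hb1, zero_smul, one_smul, zero_add]
  apply LinearEquiv.ext
  intro v
  rw [key x hx hx', key y hy hy']

end two

end GL4.H30
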