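import Pool.Agent.Helper30.GL4.Loc2

/-!
# The elements without fixed points
-/

set_option autoImplicit false

namespace GL4.H30

open Module Submodule GL4

variable {F : Type} [Field F] {V : Type} [AddCommGroup V] [Module F V]

theorem comm_conj {G : Type*} [Group G] {a b : G} (h : Commute a b) (x : G) :
    Commute (x * a * x⁻¹) (x * b * x⁻¹) := by
  have h1 : (x * a * x⁻¹) * (x * b * x⁻¹) = x * (a * b) * x⁻¹ := by group
  have h2 : (x * b * x⁻¹) * (x * a * x⁻¹) = x * (b * a) * x⁻¹ := by group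
  show (x * a * x⁻¹) * (x * b * x⁻¹) = (x * b * x⁻¹) * (x * a * x⁻¹)
  rw [h1, h2, h.eq]

theorem comm_conj' {G : Type*} [Group G] {a b : G} (h : Commute a b) (x : G) :
    Commute (x⁻¹ * a * x) (x⁻¹ * b * x) := by
  have := comm_conj h x⁻¹
  rwa [inv_inv] at this

/-- centraliser in `X` -/
def Cen (X : Subgroup (V ≃ₗ[F] V)) (g : V ≃ₗ[F] V) : Subgroup (V ≃ₗ[F] V) where
  carrier := {t | t ∈ X ∧ Commute t g}
  mul_mem' := fun ha hb => ⟨X.mul_mem ha.1 hb.1, ha.2.mul_left hb.2⟩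
  one_mem' := ⟨X.one_mem, Commute.one_left _⟩
  inv_mem' := fun ha => ⟨X.inv_mem ha.1, ha.2.inv_left⟩

theorem mem_Cen {X : Subgroup (V ≃ₗ[F] V)} {g t : V ≃ₗ[F] V} :
    t ∈ Cen X g ↔ t ∈ X ∧ Commute t g := Iff.rfl

theorem mem_Cen_iff {X : Subgroup (V ≃ₗ[F] V)} {g t : V ≃ₗ[F] V} :
    t ∈ Cen X g ↔ t ∈ X ∧ t * g * t⁻¹ = g := by
  rw [mem_Cen]
  refine and_congr_right fun _ => ?_
  rw [mul_inv_eq_iff_eq_mul]
  rfl

section two

variable (h2 : finrank F V = 2)
include h2

/-- normaliser in `X` of the centraliser -/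
def Nrm [Nontrivial V] (X : Subgroup (V ≃ₗ[F] V)) {g : V ≃ₗ[F] V} (hg : NS g) :
    Subgroup (V ≃ₗ[F] V) where
  carrier := {x | x ∈ X ∧ Commute (x * g * x⁻¹) g}
  mul_mem' := by
    rintro x y ⟨hx, hx'⟩ ⟨hy, hy'⟩
    refine ⟨X.mul_mem hx hy, ?_⟩
    have h3 := comm_conj hy' x
    have h4 : x * y * g * (x * y)⁻¹ = x * (y * g * y⁻¹) * x⁻¹ := by group
    rw [h4]
    exact (hg.conj x).comm_trans h2 h3 hx'.symm
  one_mem' := ⟨X.one_mem, by simp⟩
  inv_mem' := by
    rintro x ⟨hx, hx'⟩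
    refine ⟨X.inv_mem hx, ?_⟩
    have h3 := comm_conj hx' x⁻¹
    have h4 : x⁻¹ * (x * g * x⁻¹) * x⁻¹⁻¹ = g := by group
    rw [h4] at h3
    exact h3.symm

theorem mem_Nrm [Nontrivial V] {X : Subgroup (V ≃ₗ[F] V)} {g : V ≃ₗ[F] V} {hg : NS g}
    {x : V ≃ₗ[F] V} : x ∈ Nrm h2 X hg ↔ x ∈ X ∧ Commute (x * g * x⁻¹) g := Iff.rfl

theorem card_Nrm [Finite F] [Nontrivial V] {X : Subgroup (V ≃ₗ[F] V)} {g : V ≃ₗ[F] V}
    (hg : NS g) : ∃ ν : ℕ, (ν = 1 ∨ ν = 2) ∧
      Nat.card (Nrm h2 X hg) = ν * Nat.card (Cen X g) := by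
  have hfin : FiniteDimensional F V := FiniteDimensional.of_finrank_pos (by omega)
  have hle : Cen X g ≤ Nrm h2 X hg := by
    intro t ht
    refine ⟨ht.1, ?_⟩
    rw [mem_Cen_iff] at ht
    rw [ht.2]
  have hcard : Nat.card ((Cen X g).subgroupOf (Nrm h2 X hg)) = Nat.card (Cen X g) :=
    Nat.card_congr (Subgroup.subgroupOfEquivOfLe hle).toEquiv
  have hmul := Subgroup.card_mul_index ((Cen X g).subgroupOf (Nrm h2 X hg))
  rw [hcard] at hmul
  by_cases hx : ∃ x ∈ Nrm h2 X hg, x ∉ Cen X g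
  · obtain ⟨x1, hx1, hx1'⟩ := hx
    refine ⟨2, Or.inr rfl, ?_⟩
    have h3 : ((Cen X g).subgroupOf (Nrm h2 X hg)).index = 2 := by
      rw [Subgroup.index_eq_two_iff]
      refine ⟨⟨x1, hx1⟩, fun b => ?_⟩
      rw [Subgroup.mem_subgroupOf, Subgroup.mem_subgroupOf]
      by_cases hb : (b : V ≃ₗ[F] V) ∈ Cen X g
      · refine Or.inr ⟨hb, fun h => hx1' ?_⟩
        have h4 : x1 = (b : V ≃ₗ[F] V)⁻¹ * ((b : V ≃ₗ[F] V) * x1) := by group
        rw [h4]
        exact (Cen X g).mul_mem ((Cen X g).inv_mem hb) h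
      · refine Or.inl ⟨?_, hb⟩
        show (b : V ≃ₗ[F] V) * x1 ∈ Cen X g
        rw [mem_Cen_iff]
        refine ⟨X.mul_mem b.2.1 hx1.1, ?_⟩
        have hb1 : ((b : V ≃ₗ[F] V)⁻¹) ∈ Nrm h2 X hg := (Nrm h2 X hg).inv_mem b.2
        have hb2 : ((b : V ≃ₗ[F] V)⁻¹) ∉ Cen X g := fun h => hb (by
          have := (Cen X g).inv_mem h
          rwa [inv_inv] at this)
        have h5 : x1 * g * x1⁻¹ = (b : V ≃ₗ[F] V)⁻¹ * g * (b : V ≃ₗ[F] V)⁻¹⁻¹ := by
          refine hg.conj_two h2 hx1.2 (fun h => hx1' ?_) hb1.2 (fun h => hb2 ?_)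
          · rw [mem_Cen_iff]; exact ⟨hx1.1, h⟩
          · rw [mem_Cen_iff]; exact ⟨hb1.1, h⟩
        have h6 : (b : V ≃ₗ[F] V) * x1 * g * ((b : V ≃ₗ[F] V) * x1)⁻¹ =
            (b : V ≃ₗ[F] V) * (x1 * g * x1⁻¹) * (b : V ≃ₗ[F] V)⁻¹ := by group
        rw [h6, h5]
        group
    rw [h3] at hmul
    rw [← hmul, mul_comm]
  · push Not at hx
    refine ⟨1, Or.inl rfl, ?_⟩
    rw [one_mul, le_antisymm hle hx]

omit h2 in
theorem card_scalars [Finite F] [Nontrivial V] : Nat.card {g : V ≃ₗ[F] V // Sc g} =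
    Nat.card F - 1 := by
  have h3 : Nat.card Fˣ = Nat.card F - 1 := by
    have := Fintype.ofFinite F
    rw [Nat.card_units]
  rw [← h3]
  symm
  refine Nat.card_congr (Equiv.ofBijective (fun a : Fˣ =>
    (⟨sc a, (a : F), fun v => rfl⟩ : {g : V ≃ₗ[F] V // Sc g})) ⟨?_, ?_⟩)
  · intro a b h
    obtain ⟨v, hv⟩ := exists_ne (0 : V)
    have h4 := DFunLike.congr_fun (congrArg Subtype.val h) v
    simp only [sc_apply] at h4
    exact Units.ext (smul_left_injective F hv h4)
  · rintro ⟨g, a, ha⟩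
    have ha0 : a ≠ 0 := by
      rintro rfl
      obtain ⟨v, hv⟩ := exists_ne (0 : V)
      have h4 := ha v
      rw [zero_smul] at h4
      exact hv ((map_eq_zero_iff g g.injective).1 h4)
    exact ⟨Units.mk0 a ha0, Subtype.ext (LinearEquiv.ext fun v => (ha v).symm)⟩

open Classical in
theorem card_Cen [Finite F] [Nontrivial V] [Fintype (V ≃ₗ[F] V)] {X : Subgroup (V ≃ₗ[F] V)}
    (hZ : ∀ a : Fˣ, (sc a : V ≃ₗ[F] V) ∈ X) {g : V ≃ₗ[F] V} (hgX : g ∈ X) (hg : NS g) :
    ∃ d : ℕ, 2 ≤ d ∧ d ∣ Nat.card F + 1 ∧ Nat.card (Cen X g) = (Nat.card F - 1) * d ∧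
      (Finset.univ.filter (fun t : V ≃ₗ[F] V => t ∈ X ∧ NS t ∧ Commute t g)).card +
        (Nat.card F - 1) = (Nat.card F - 1) * d := by
  have hfin : FiniteDimensional F V := FiniteDimensional.of_finrank_pos (by omega)
  have hFV : Finite V := Module.finite_of_finite F
  have hq : 2 ≤ Nat.card F := Finite.one_lt_card
  -- the scalars
  have hZle : (sc : Fˣ →* (V ≃ₗ[F] V)).range ≤ Cen X g := by
    rintro _ ⟨a, rfl⟩
    refine ⟨hZ a, ?_⟩
    apply LinearEquiv.ext
    intro v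
    rw [LinearEquiv.mul_apply, LinearEquiv.mul_apply, sc_apply, sc_apply, map_smul]
  have hscinj : Function.Injective (sc : Fˣ →* (V ≃ₗ[F] V)) := by
    intro a b h
    obtain ⟨v, hv⟩ := exists_ne (0 : V)
    have h4 := DFunLike.congr_fun h v
    rw [sc_apply, sc_apply] at h4
    exact Units.ext (smul_left_injective F hv h4)
  have hcu : Nat.card Fˣ = Nat.card F - 1 := by
    have := Fintype.ofFinite F
    rw [Nat.card_units]
  have hcZ : Nat.card (sc : Fˣ →* (V ≃ₗ[F] V)).range = Nat.card F - 1 := by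
    rw [← hcu]
    exact (Nat.card_congr (MonoidHom.ofInjective hscinj).toEquiv).symm
  obtain ⟨d, hd⟩ := Subgroup.card_dvd_of_le hZle
  rw [hcZ] at hd
  have hd0 : d ≠ 0 := by
    rintro rfl
    rw [mul_zero] at hd
    exact Nat.card_pos.ne' hd
  have hd1 : d ≠ 1 := by
    rintro rfl
    rw [mul_one] at hd
    have h3 := Subgroup.eq_of_le_of_card_ge hZle (by rw [hd, hcZ])
    have h4 : g ∈ Cen X g := ⟨hgX, Commute.refl g⟩
    rw [← h3] at h4
    obtain ⟨a, ha⟩ := h4
    exact hg.not_sc ⟨(a : F), fun v => by rw [← ha]; rfl⟩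
  refine ⟨d, by omega, ?_, hd, ?_⟩
  · -- free action on the nonzero vectors
    let S : Type := {v : V // v ≠ 0}
    let act : MulAction (Cen X g) S :=
      { smul := fun t v => ⟨t.1 v.1, fun h => v.2 ((map_eq_zero_iff t.1 t.1.injective).1 h)⟩
        one_smul := fun v => Subtype.ext rfl
        mul_smul := fun a b v => Subtype.ext rfl }
    have hfree : ∀ v : S, MulAction.stabilizer (Cen X g) v = ⊥ := by
      intro v
      rw [Subgroup.eq_bot_iff_forall]
      intro t ht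
      rw [MulAction.mem_stabilizer_iff] at ht
      have h3 : t.1 v.1 = v.1 := congrArg Subtype.val ht
      have h4 : Sc t.1 := by
        by_contra hs
        have h5 := hg.of_comm h2 t.2.2 hs
        apply h5.not_mem v.2
        rw [h3]
        exact mem_span_singleton_self _
      obtain ⟨a, ha⟩ := h4
      have h5 := ha v.1
      rw [h3] at h5
      have h6 : (1 : F) = a := smul_left_injective F v.2 (by simpa using h5)
      apply Subtype.ext
      apply LinearEquiv.ext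
      intro w
      rw [ha, ← h6, one_smul]
      rfl
    have h3 := card_dvd_of_free hfree
    have h4 : Nat.card S = Nat.card F ^ 2 - 1 := by
      have h5 : Nat.card V = Nat.card F ^ 2 := by
        rw [← h2]
        exact Module.natCard_eq_pow_finrank
      rw [← h5]
      have := Fintype.ofFinite V
      rw [Nat.card_eq_fintype_card, Nat.card_eq_fintype_card]
      have h6 := Fintype.card_subtype_compl (fun v : V => v = 0)
      rw [Fintype.card_subtype_eq] at h6
      convert h6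
    rw [h4, hd] at h3
    have h5 : Nat.card F ^ 2 - 1 = (Nat.card F - 1) * (Nat.card F + 1) := by
      have h6 := Nat.sq_sub_sq (Nat.card F) 1
      rw [one_pow] at h6
      rw [h6, mul_comm]
    rw [h5] at h3
    exact Nat.dvd_of_mul_dvd_mul_left (by omega) h3
  · rw [← hd]
    have h3 : Nat.card (Cen X g) =
        (Finset.univ.filter (fun t : V ≃ₗ[F] V => t ∈ X ∧ Commute t g)).card := by
      have h4 : Nat.card (Cen X g) = Nat.card {t : V ≃ₗ[F] V // t ∈ X ∧ Commute t g} := rfl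
      rw [h4, Nat.card_eq_fintype_card, Fintype.card_subtype]
    have h4 : (Finset.univ.filter (fun t : V ≃ₗ[F] V => Sc t)).card = Nat.card F - 1 := by
      rw [← card_scalars (F := F) (V := V), Nat.card_eq_fintype_card, Fintype.card_subtype]
    rw [h3, ← h4, ← Finset.card_union_of_disjoint]
    · congr 1
      ext t
      simp only [Finset.mem_union, Finset.mem_filter, Finset.mem_univ, true_and]
      constructor
      · rintro (⟨ht, _, hc⟩ | ⟨a, ha⟩)
        · exact ⟨ht, hc⟩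
        · have ha0 : a ≠ 0 := by
            rintro rfl
            obtain ⟨v, hv⟩ := exists_ne (0 : V)
            have h5 := ha v
            rw [zero_smul] at h5
            exact hv ((map_eq_zero_iff t t.injective).1 h5)
          have h5 : t = sc (Units.mk0 a ha0) := LinearEquiv.ext fun v => ha v
          have h6 : t ∈ Cen X g := by
            rw [h5]
            exact hZle ⟨_, rfl⟩
          exact h6
      · rintro ⟨ht, hc⟩
        by_cases hs : Sc t
        · exact Or.inr hs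
        · exact Or.inl ⟨ht, hg.of_comm h2 hc hs, hc⟩
    · rw [Finset.disjoint_left]
      intro t ht ht'
      simp only [Finset.mem_filter, Finset.mem_univ, true_and] at ht ht'
      exact ht.2.1.not_sc ht'

open Classical in
/-- the size of a class -/
theorem class_card [Finite F] [Nontrivial V] [Fintype (V ≃ₗ[F] V)] {X : Subgroup (V ≃ₗ[F] V)}
    {g : V ≃ₗ[F] V} (hgX : g ∈ X) (hg : NS g) :
    (Finset.univ.filter (fun h : V ≃ₗ[F] V => h ∈ X ∧ NS h ∧
      ∃ x ∈ X, Commute (x⁻¹ * h * x) g)).card * Nat.card (Nrm h2 X hg) =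
    Nat.card X *
      (Finset.univ.filter (fun t : V ≃ₗ[F] V => t ∈ X ∧ NS t ∧ Commute t g)).card := by
  have hfin : FiniteDimensional F V := FiniteDimensional.of_finrank_pos (by omega)
  set XF : Finset (V ≃ₗ[F] V) := Finset.univ.filter (· ∈ X) with hXF
  set S0 : Finset (V ≃ₗ[F] V) := Finset.univ.filter (fun h => h ∈ X ∧ NS h) with hS0
  have hmXF : ∀ g, g ∈ XF ↔ g ∈ X := fun g => by simp [hXF]
  have hmS0 : ∀ g, g ∈ S0 ↔ g ∈ X ∧ NS g := fun g => by simp [hS0]
  have hcX : Nat.card X = XF.card := by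
    have h3 : Nat.card X = Nat.card {g : V ≃ₗ[F] V // g ∈ X} := rfl
    rw [h3, Nat.card_eq_fintype_card, Fintype.card_subtype]
  have hdc := Finset.sum_card_bipartiteAbove_eq_sum_card_bipartiteBelow (s := XF) (t := S0)
    (fun x h => Commute (x⁻¹ * h * x) g)
  simp only [Finset.bipartiteAbove, Finset.bipartiteBelow] at hdc
  have h3 : ∑ x ∈ XF, (S0.filter (fun h => Commute (x⁻¹ * h * x) g)).card = Nat.card X *
      (Finset.univ.filter (fun t : V ≃ₗ[F] V => t ∈ X ∧ NS t ∧ Commute t g)).card := by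
    rw [hcX]
    refine Finset.sum_const_nat (fun x hx => ?_)
    rw [hmXF] at hx
    refine Finset.card_bij (fun h _ => x⁻¹ * h * x) ?_ ?_ ?_
    · intro h hh
      rw [Finset.mem_filter, hmS0] at hh
      rw [Finset.mem_filter]
      refine ⟨Finset.mem_univ _, X.mul_mem (X.mul_mem (X.inv_mem hx) hh.1.1) hx, ?_, hh.2⟩
      have h5 := hh.1.2.conj x⁻¹
      rwa [inv_inv] at h5
    · intro a _ b _ h
      exact mul_left_cancel (mul_right_cancel h)
    · intro t ht
      rw [Finset.mem_filter] at ht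
      obtain ⟨_, htX, htN, htc⟩ := ht
      have h5 : x⁻¹ * (x * t * x⁻¹) * x = t := by group
      refine ⟨x * t * x⁻¹, ?_, h5⟩
      rw [Finset.mem_filter, hmS0, h5]
      exact ⟨⟨X.mul_mem (X.mul_mem hx htX) (X.inv_mem hx), htN.conj x⟩, htc⟩
  have h4 : ∑ h ∈ S0, (XF.filter (fun x => Commute (x⁻¹ * h * x) g)).card =
      (Finset.univ.filter (fun h : V ≃ₗ[F] V => h ∈ X ∧ NS h ∧
      ∃ x ∈ X, Commute (x⁻¹ * h * x) g)).card * Nat.card (Nrm h2 X hg) := by
    have hsub : Finset.univ.filter (fun h : V ≃ₗ[F] V => h ∈ X ∧ NS h ∧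
        ∃ x ∈ X, Commute (x⁻¹ * h * x) g) ⊆ S0 := by
      intro h hh
      rw [Finset.mem_filter] at hh
      rw [hmS0]
      exact ⟨hh.2.1, hh.2.2.1⟩
    rw [← Finset.sum_subset hsub]
    · refine Finset.sum_const_nat (fun h hh => ?_)
      rw [Finset.mem_filter] at hh
      obtain ⟨_, hhX, hhN, x0, hx0, hc0⟩ := hh
      have hcN : Nat.card (Nrm h2 X hg) =
          (Finset.univ.filter (fun x : V ≃ₗ[F] V => x ∈ Nrm h2 X hg)).card := by
        have h5 : Nat.card (Nrm h2 X hg) = Nat.card {x : V ≃ₗ[F] V // x ∈ Nrm h2 X hg} := rfl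
        rw [h5, Nat.card_eq_fintype_card, Fintype.card_subtype]
      rw [hcN]
      symm
      have ht0 : NS (x0⁻¹ * h * x0) := by
        have h5 := hhN.conj x0⁻¹
        rwa [inv_inv] at h5
      refine Finset.card_bij (fun n _ => x0 * n) ?_ ?_ ?_
      · intro n hn
        rw [Finset.mem_filter, mem_Nrm] at hn
        obtain ⟨_, hnX, hnc⟩ := hn
        rw [Finset.mem_filter, hmXF]
        refine ⟨X.mul_mem hx0 hnX, ?_⟩
        have h5 : Commute (x0⁻¹ * h * x0) (n * g * n⁻¹) := hg.comm_trans h2 hc0 hnc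
        have h6 := comm_conj' h5 n
        have h7 : n⁻¹ * (x0⁻¹ * h * x0) * n = (x0 * n)⁻¹ * h * (x0 * n) := by group
        have h8 : n⁻¹ * (n * g * n⁻¹) * n = g := by group
        rw [h7, h8] at h6
        exact h6
      · intro a _ b _ hab
        exact mul_left_cancel hab
      · intro x hx
        rw [Finset.mem_filter, hmXF] at hx
        refine ⟨x0⁻¹ * x, ?_, by group⟩
        rw [Finset.mem_filter, mem_Nrm]
        refine ⟨Finset.mem_univ _, X.mul_mem (X.inv_mem hx0) hx.1, ?_⟩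
        have h5 := comm_conj hx.2 (x0⁻¹ * x)
        have h6 : x0⁻¹ * x * (x⁻¹ * h * x) * (x0⁻¹ * x)⁻¹ = x0⁻¹ * h * x0 := by group
        rw [h6] at h5
        exact ht0.comm_trans h2 h5.symm hc0.symm
    · intro h hh hh'
      rw [hmS0] at hh
      rw [Finset.card_eq_zero, Finset.filter_eq_empty_iff]
      intro x hx hc
      rw [hmXF] at hx
      apply hh'
      rw [Finset.mem_filter]
      exact ⟨Finset.mem_univ _, hh.1, hh.2, x, hx, hc⟩
  rw [← h4, ← hdc, h3]

end two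

end GL4.H30
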