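import Pool.Agent.Helper30.GL4.Cnt2
import Pool.Agent.Helper30.GL4.NSc

/-!
# LGEO: the class equation of a group transitive on the points of a projective line
-/

set_option autoImplicit false

namespace GL4.H30

open Module Submodule GL4

variable {F : Type} [Field F] {V : Type} [AddCommGroup V] [Module F V]

theorem sc_comm (a : Fˣ) (g : V ≃ₗ[F] V) : (sc a : V ≃ₗ[F] V) * g = g * sc a := by
  apply LinearEquiv.ext
  intro v
  rw [LinearEquiv.mul_apply, LinearEquiv.mul_apply, sc_apply, sc_apply, map_smul]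

theorem im_sc (a : Fˣ) (P : Submodule F V) : im (sc a) P = P := by
  have h1 : ∀ a : Fˣ, im (sc a) P ≤ P := by
    rintro a _ ⟨v, hv, rfl⟩
    exact P.smul_mem _ hv
  refine le_antisymm (h1 a) ?_
  have h2 := im_mono (sc a) (h1 a⁻¹)
  rw [← im_mul, ← map_mul, mul_inv_cancel, map_one, im_one] at h2
  exact h2

/-- `K` together with the scalars -/
def ExtK (K : Subgroup (V ≃ₗ[F] V)) : Subgroup (V ≃ₗ[F] V) where
  carrier := {g | ∃ k ∈ K, ∃ a : Fˣ, g = sc a * k}
  mul_mem' := by
    rintro _ _ ⟨k, hk, a, rfl⟩ ⟨k', hk', a', rfl⟩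
    refine ⟨k * k', K.mul_mem hk hk', a * a', ?_⟩
    rw [map_mul]
    have h1 := sc_comm a' k
    calc sc a * k * (sc a' * k') = sc a * (k * sc a') * k' := by group
      _ = sc a * (sc a' * k) * k' := by rw [h1]
      _ = sc a * sc a' * (k * k') := by group
  one_mem' := ⟨1, K.one_mem, 1, by simp⟩
  inv_mem' := by
    rintro _ ⟨k, hk, a, rfl⟩
    refine ⟨k⁻¹, K.inv_mem hk, a⁻¹, ?_⟩
    rw [mul_inv_rev, map_inv, ← map_inv, sc_comm]

theorem le_ExtK (K : Subgroup (V ≃ₗ[F] V)) : K ≤ ExtK K := fun k hk => ⟨k, hk, 1, by simp⟩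

theorem sc_mem_ExtK (K : Subgroup (V ≃ₗ[F] V)) (a : Fˣ) : (sc a : V ≃ₗ[F] V) ∈ ExtK K :=
  ⟨1, K.one_mem, a, by simp⟩

theorem Tv_pow (f : Module.Dual F V) (e : V) (he : f e = 0) (s : F) (n : ℕ) :
    (Tv f e he s) ^ n = Tv f e he (n * s) := by
  induction n with
  | zero => rw [pow_zero, Nat.cast_zero, zero_mul, Tv_zero]
  | succ n ih =>
    rw [pow_succ, ih, ← Tv_add]
    congr 1
    push_cast
    ring

theorem Rat.pow {g : V ≃ₗ[F] V} {P : Submodule F V} (hP : Pt P) {r : F}
    (hg : Rat g P r) (n : ℕ) : Rat (g ^ n) P (r ^ n) := by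
  induction n with
  | zero =>
    rw [pow_zero, pow_zero]
    exact Sc.rat ⟨1, fun v => by simp⟩ hP
  | succ n ih =>
    rw [pow_succ, pow_succ]
    exact ih.mul hg

/-- unipotent elements are transvections -/
theorem exists_Tv {f : Module.Dual F V} {e u : V} (he : f e = 0) (hu : f u = 1)
    (hPf : (F ∙ e) = LinearMap.ker f) {g : V ≃ₗ[F] V} (h1 : ∀ v ∈ F ∙ e, g v = v)
    (h3 : ∀ v, g v - v ∈ F ∙ e) : ∃ s, g = Tv f e he s := by
  obtain ⟨s, hs⟩ := mem_span_singleton.1 (h3 u)
  refine ⟨s, LinearEquiv.ext fun v => ?_⟩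
  have h5 : v - f v • u ∈ F ∙ e := by
    rw [hPf, LinearMap.mem_ker, map_sub, map_smul, hu, smul_eq_mul, mul_one, sub_self]
  have h6 := h1 _ h5
  have h7 : g u = u + s • e := by rw [hs]; module
  have h8 : g v = (v - f v • u) + f v • (u + s • e) := by
    rw [← h6, ← h7]
    simp only [map_sub, map_smul]
    module
  rw [h8, Tv_apply]
  module

/-- the arithmetic at the end -/
theorem final_arith (q w c n1 n2 s0 N : ℕ) (Sg : ℚ) (hq : 2 ≤ q) (hw : 1 ≤ w) (hc : 1 ≤ c)
    (hN : N = (q + 1) * ((q - 1) * w * c))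
    (h1 : (q + 1) * ((q - 1) * w) = n1 + (q + 1) * (q - 1))
    (h2 : (q + 1) * ((q - 1) * w * c) = (q + 1) * ((q - 1) * w) + 2 * n2)
    (h3 : N = (q - 1) + n1 + n2 + s0) (h4 : (s0 : ℚ) = N * Sg) :
    (1 : ℚ) - 1 / ((q + 1) * w * c) = (w - 1) / (w * c) + (c - 1) / (2 * c) + Sg := by
  obtain ⟨r, rfl⟩ : ∃ r, q = r + 1 := ⟨q - 1, by omega⟩
  have hr : 1 ≤ r := by omega
  rw [Nat.add_sub_cancel] at *
  have hN' : (N : ℚ) = (r + 2) * (r * w * c) := by rw [hN]; push_cast; ring
  have h1' : ((r : ℚ) + 2) * (r * w) = n1 + (r + 2) * r := by exact_mod_cast h1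
  have h2' : ((r : ℚ) + 2) * (r * w * c) = (r + 2) * (r * w) + 2 * n2 := by exact_mod_cast h2
  have h3' : (N : ℚ) = r + n1 + n2 + s0 := by rw [h3]; push_cast; ring
  rw [hN'] at h3' h4
  have hr0 : (r : ℚ) ≠ 0 := by exact_mod_cast (by omega : r ≠ 0)
  have hw0 : (w : ℚ) ≠ 0 := by exact_mod_cast (by omega : w ≠ 0)
  have hc0 : (c : ℚ) ≠ 0 := by exact_mod_cast (by omega : c ≠ 0)
  have hr2 : (r : ℚ) + 2 ≠ 0 := by positivity
  have hSg : Sg = ((r + 2) * (r * w * c) - r - n1 - n2) / ((r + 2) * (r * w * c)) := by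
    rw [eq_div_iff (by positivity)]
    linear_combination (-1 : ℚ) * h4 - h3'
  have e1 : (n1 : ℚ) = (r + 2) * (r * w) - (r + 2) * r := by linear_combination (-1 : ℚ) * h1'
  have e2 : (n2 : ℚ) = ((r + 2) * (r * w * c) - (r + 2) * (r * w)) / 2 := by
    linear_combination (-1 / 2 : ℚ) * h2'
  rw [hSg, e1, e2]
  push_cast
  have hr3 : (r : ℚ) + 1 + 1 ≠ 0 := by positivity
  field_simp
  ring

end GL4.H30

namespace GL4.H30

open Module Submodule GL4

open Classical in
theorem lgeo : GL4.LGEO := by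
  intro F _ _ V _ _ K h2 hT
  have hfin : FiniteDimensional F V := FiniteDimensional.of_finrank_pos (by omega)
  have hFV : Finite V := Module.finite_of_finite F
  have hnt : Nontrivial V := by
    rw [← finrank_pos_iff (R := F)]; omega
  let hftA : Fintype (V ≃ₗ[F] V) := Fintype.ofFinite _
  have hq : 2 ≤ Nat.card F := Finite.one_lt_card
  -- the characteristic
  have hft : Fintype F := Fintype.ofFinite F
  obtain ⟨n, hp, hpn⟩ := FiniteField.card F (ringChar F)
  have hpn' : Nat.card F = ringChar F ^ (n : ℕ) := by rw [Nat.card_eq_fintype_card, hpn]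
  set p := ringChar F with hpdef
  have hpFact : Fact p.Prime := ⟨hp⟩
  have hpq : p ∣ Nat.card F := by
    rw [hpn']
    exact dvd_pow_self p n.pos.ne'
  -- the group with the scalars
  set X : Subgroup (V ≃ₗ[F] V) := ExtK K with hX
  have hZ : ∀ a : Fˣ, (sc a : V ≃ₗ[F] V) ∈ X := sc_mem_ExtK K
  have hKX : K ≤ X := le_ExtK K
  have hTX : PtTrans X := by
    intro x y hx hy
    obtain ⟨g, hg, h⟩ := hT x y hx hy
    exact ⟨g, hKX hg, h⟩
  -- the base point
  obtain ⟨e, he0⟩ := exists_ne (0 : V)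
  have hP : Pt (F ∙ e) := pt_span he0
  obtain ⟨f, hf0, hPf⟩ := (pt_hy h2 hP).exists_ker
  have he : f e = 0 := by
    rw [← LinearMap.mem_ker, ← hPf]; exact mem_span_singleton_self e
  obtain ⟨u, hu⟩ := LinearMap.surjective hf0 1
  obtain ⟨c, hc1, hcq, hstab, hcw, hcr⟩ := stab_facts h2 hZ he he0 hu hPf
  have hr1 := card_rat_one h2 hZ he he0 hu hPf
  set w := Nat.card (Aset X f e he) with hw
  have hw1 : 1 ≤ w := Nat.card_pos
  have hwq : w ∣ Nat.card F := AddSubgroup.card_addSubgroup_dvd_card _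
  -- counting
  obtain ⟨hN, n1, n2, hE1, hE2, hE3⟩ := counting h2 hZ hTX hP hr1 hstab
  -- the classes of elements without fixed points
  let S0t : Type := {g : V ≃ₗ[F] V // g ∈ X ∧ NS g}
  let R : Setoid S0t :=
    { r := fun g h => ∃ x ∈ X, Commute (x⁻¹ * h.1 * x) g.1
      iseqv := by
        refine ⟨fun g => ⟨1, X.one_mem, by simp⟩, ?_, ?_⟩
        · rintro g h ⟨x, hx, hc⟩
          refine ⟨x⁻¹, X.inv_mem hx, ?_⟩
          have h3 := comm_conj hc x
          have h4 : x * (x⁻¹ * h.1 * x) * x⁻¹ = h.1 := by group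
          rw [h4] at h3
          rw [inv_inv]
          exact h3.symm
        · rintro g h k ⟨x, hx, hc⟩ ⟨y, hy, hc'⟩
          refine ⟨y * x, X.mul_mem hy hx, ?_⟩
          have h3 := comm_conj' hc' x
          have h4 : x⁻¹ * (y⁻¹ * k.1 * y) * x = (y * x)⁻¹ * k.1 * (y * x) := by group
          rw [h4] at h3
          have h5 : NS (x⁻¹ * h.1 * x) := by
            have := h.2.2.conj x⁻¹
            rwa [inv_inv] at this
          exact h5.comm_trans h2 h3 hc.symm }
  have hR : ∀ g h : S0t, R.r g h ↔ ∃ x ∈ X, Commute (x⁻¹ * h.1 * x) g.1 := fun g h => Iff.rfl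
  have hdd : ∀ g : S0t, ∃ d : ℕ, 2 ≤ d ∧ d ∣ Nat.card F + 1 ∧
      Nat.card (Cen X g.1) = (Nat.card F - 1) * d ∧
      (Finset.univ.filter (fun t : V ≃ₗ[F] V => t ∈ X ∧ NS t ∧ Commute t g.1)).card +
        (Nat.card F - 1) = (Nat.card F - 1) * d := fun g => card_Cen h2 hZ g.2.1 g.2.2
  have hnn : ∀ g : S0t, ∃ ν : ℕ, (ν = 1 ∨ ν = 2) ∧
      Nat.card (Nrm h2 X g.2.2) = ν * Nat.card (Cen X g.1) := fun g => card_Nrm h2 g.2.2
  choose dd hd2 hdq hdC hdN using hdd
  choose nn hn12 hnC using hnn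
  let hftS : Fintype S0t := Fintype.ofFinite _
  let hftQ : Fintype (Quotient R) := Fintype.ofFinite _
  let D : Multiset (ℕ × ℕ) :=
    (Finset.univ : Finset (Quotient R)).val.map (fun C => (dd C.out, nn C.out))
  refine ⟨w, c, D, hw1, hc1, ?_, hwq, ?_, ?_, ?_, ?_, hcq, ?_, ?_, ?_⟩
  · -- power of p
    rw [hpn', Nat.dvd_prime_pow hp] at hwq
    obtain ⟨s, _, hs⟩ := hwq
    exact ⟨s, hs⟩
  · -- w = 1
    intro hw' hpK
    obtain ⟨k, hk⟩ := exists_prime_orderOf_dvd_card' p hpK
    have hk' : orderOf (k : V ≃ₗ[F] V) = p := by rw [← hk, Subgroup.orderOf_coe]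
    have hpg : IsPGroup p (Subgroup.zpowers (k : V ≃ₗ[F] V)) := by
      apply IsPGroup.of_card (n := 1)
      rw [Nat.card_zpowers, hk', pow_one]
    have hVc : Nat.card V = Nat.card F ^ 2 := by
      rw [← h2]
      exact Module.natCard_eq_pow_finrank
    obtain ⟨v, hv, hvfix⟩ := exists_fixed (α := V) hpg (X := {v : V | v ≠ 0}) (Set.toFinite _)
      (fun g _ x hx h => hx ((map_eq_zero_iff g g.injective).1 h)) (by
        intro hd
        have h3 : Set.ncard {v : V | v ≠ 0} = Nat.card F ^ 2 - 1 := by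
          have h4 : {v : V | v ≠ 0} = ({0} : Set V)ᶜ := by ext; simp
          rw [h4, Set.ncard_compl, hVc, Set.ncard_singleton]
        rw [h3] at hd
        have h4 : p ∣ Nat.card F ^ 2 := dvd_pow hpq (by norm_num)
        have h5 : 1 ≤ Nat.card F ^ 2 := Nat.one_le_pow _ _ (by omega)
        have h6 := (Nat.dvd_sub h4 hd)
        have h7 : Nat.card F ^ 2 - (Nat.card F ^ 2 - 1) = 1 := by omega
        rw [h7] at h6
        exact hp.one_lt.ne' (Nat.dvd_one.1 h6))
    have hkv : (k : V ≃ₗ[F] V) v = v := hvfix _ (Subgroup.mem_zpowers _)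
    have hv0 : v ≠ 0 := hv
    have hQ : Pt (F ∙ v) := pt_span hv0
    have hkQ : im (k : V ≃ₗ[F] V) (F ∙ v) = F ∙ v :=
      im_span_eq (a := 1) hv0 (by rw [hkv, one_smul])
    obtain ⟨r, hr⟩ := exists_rat h2 hQ hkQ
    have hrp : r ^ p = 1 := by
      have h3 := hr.pow hQ p
      have h4 : ((k : V ≃ₗ[F] V)) ^ p = 1 := by rw [← hk']; exact pow_orderOf_eq_one _
      rw [h4] at h3
      exact Rat.unique h2 hQ h3 (Sc.rat ⟨1, fun v => by simp⟩ hQ)
    have hr1' : r = 1 := by
      have h3 : (r - 1) ^ p = 0 := by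
        rw [sub_pow_char, hrp, one_pow, sub_self]
      exact sub_eq_zero.1 (pow_eq_zero_iff hp.pos.ne' |>.1 h3)
    subst hr1'
    obtain ⟨x, hx, hxQ⟩ := hT (F ∙ v) (F ∙ e) hQ hP
    have h3 := hr.conj x
    rw [hxQ] at h3
    obtain ⟨a, b, hb, ha1, ha2, hab⟩ := h3
    have hab' : a = b := by
      rw [eq_div_iff hb, one_mul] at hab
      exact hab.symm
    subst hab'
    have hxv : x v ∈ F ∙ e := by
      rw [← hxQ]
      exact apply_mem_im (mem_span_singleton_self v)
    have hxv0 : x v ≠ 0 := fun h => hv0 ((map_eq_zero_iff x x.injective).1 h)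
    have ha : a = 1 := by
      have h4 := ha1 _ hxv
      rw [conj_apply, hkv] at h4
      exact (smul_left_injective F hxv0 (by simpa using h4)).symm
    subst ha
    obtain ⟨s, hs⟩ := exists_Tv he hu hPf (fun v hv => by rw [ha1 v hv, one_smul])
      (fun v => by have := ha2 v; rwa [one_smul] at this)
    have hsX : s ∈ Aset X f e he := by
      rw [mem_Aset, ← hs]
      exact hKX (K.mul_mem (K.mul_mem hx k.2) (K.inv_mem hx))
    have hbot : Aset X f e he = ⊥ := by
      have h4 : Nat.card (Aset X f e he) = 1 := by rw [← hw]; exact hw'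
      exact AddSubgroup.card_eq_one.1 h4
    rw [hbot, AddSubgroup.mem_bot] at hsX
    rw [hsX, Tv_zero] at hs
    have h5 : (k : V ≃ₗ[F] V) = 1 := by
      have h6 : (k : V ≃ₗ[F] V) = x⁻¹ * (x * (k : V ≃ₗ[F] V) * x⁻¹) * x := by group
      rw [h6, hs]
      group
    rw [h5, orderOf_one] at hk'
    exact hp.one_lt.ne hk'
  · -- w ≠ 1
    intro hw'
    have hbot : Aset X f e he ≠ ⊥ := by
      intro h
      apply hw'
      rw [hw, h]
      exact AddSubgroup.card_eq_one.2 rfl
    obtain ⟨s', hs'⟩ := AddSubgroup.ne_bot_iff_exists_ne_zero.1 hbot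
    obtain ⟨s, hs, hs0⟩ : ∃ s : F, s ∈ Aset X f e he ∧ s ≠ 0 :=
      ⟨s'.1, s'.2, fun h => hs' (Subtype.ext h)⟩
    rw [mem_Aset] at hs
    obtain ⟨k, hk, a, hka⟩ := hs
    have hkt : k = sc a⁻¹ * Tv f e he s := by
      rw [hka, ← mul_assoc, ← map_mul, inv_mul_cancel, map_one, one_mul]
    have hcom : Commute (sc a⁻¹ : V ≃ₗ[F] V) (Tv f e he s) := sc_comm _ _
    have hcu : Nat.card Fˣ = Nat.card F - 1 := by rw [Nat.card_units]
    have ha1 : (sc a⁻¹ : V ≃ₗ[F] V) ^ (Nat.card F - 1) = 1 := by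
      rw [← map_pow, ← hcu, pow_card_eq_one', map_one]
    have hcastq : ((Nat.card F : ℕ) : F) = 0 := by
      rw [Nat.card_eq_fintype_card]
      exact Nat.cast_card_eq_zero F
    have hkq : k ^ (Nat.card F - 1) = Tv f e he (-s) := by
      rw [hkt, hcom.mul_pow, ha1, one_mul, Tv_pow]
      congr 1
      rw [Nat.cast_sub (by omega), hcastq]
      simp
    have hne : k ^ (Nat.card F - 1) ≠ 1 := by
      intro h
      rw [hkq] at h
      have h3 := DFunLike.congr_fun h u
      rw [Tv_apply, hu, mul_one] at h3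
      have h4 : (-s) • e = 0 := by
        have h5 : (1 : V ≃ₗ[F] V) u = u := rfl
        rw [h5] at h3
        exact left_eq_add.1 h3.symm
      rcases smul_eq_zero.1 h4 with h5 | h5
      · exact hs0 (neg_eq_zero.1 h5)
      · exact he0 h5
    have hpow : (k ^ (Nat.card F - 1)) ^ p = 1 := by
      rw [hkq, Tv_pow]
      have h3 : ((p : ℕ) : F) = 0 := by
        rw [hpdef]; exact ringChar.Nat.cast_ringChar
      rw [h3, zero_mul, Tv_zero]
    have hord := orderOf_eq_prime hpow hne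
    rw [← hord]
    exact Subgroup.orderOf_dvd_natCard K (K.pow_mem hk _)
  · -- w = q
    intro hw'
    have htop : ∀ s : F, Tv f e he s ∈ X := by
      have h3 : Aset X f e he = ⊤ := by
        apply AddSubgroup.eq_top_of_card_eq
        rw [← hw, hw']
      intro s
      rw [← mem_Aset, h3]
      exact AddSubgroup.mem_top s
    -- representation of a point different from the base point
    have hrep : ∀ Q : Submodule F V, Pt Q → Q ≠ F ∙ e → ∃ v, f v = 1 ∧ Q = F ∙ v := by
      intro Q hQ hne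
      obtain ⟨v, hv, rfl⟩ := hQ.exists_span
      have hfv : f v ≠ 0 := by
        intro h
        apply hne
        have h3 : v ∈ F ∙ e := by rw [hPf, LinearMap.mem_ker]; exact h
        exact hQ.eq_of_le hP (by rw [span_singleton_le_iff_mem]; exact h3)
      refine ⟨(f v)⁻¹ • v, ?_, ?_⟩
      · rw [map_smul, smul_eq_mul, inv_mul_cancel₀ hfv]
      · exact (span_singleton_smul_eq (IsUnit.mk0 _ (inv_ne_zero hfv)) v).symm
    have hkey : ∀ Q Q' : Submodule F V, Pt Q → Pt Q' → Q ≠ F ∙ e → Q' ≠ F ∙ e →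
        ∃ k ∈ K, im k (F ∙ e) = F ∙ e ∧ im k Q = Q' := by
      intro Q Q' hQ hQ' hne hne'
      obtain ⟨v, hv, rfl⟩ := hrep Q hQ hne
      obtain ⟨v', hv', rfl⟩ := hrep Q' hQ' hne'
      have h3 : v' - v ∈ F ∙ e := by
        rw [hPf, LinearMap.mem_ker, map_sub, hv, hv', sub_self]
      obtain ⟨s, hs⟩ := mem_span_singleton.1 h3
      obtain ⟨k, hk, a, hka⟩ := htop s
      have hT1 : im (Tv f e he s) (F ∙ e) = F ∙ e := by
        rw [im_span_singleton, Tv_apply, he, mul_zero, zero_smul, add_zero]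
      have hT2 : im (Tv f e he s) (F ∙ v) = F ∙ v' := by
        rw [im_span_singleton, Tv_apply, hv, mul_one, hs, add_sub_cancel]
      rw [hka, im_mul, im_sc] at hT1 hT2
      exact ⟨k, hk, hT1, hT2⟩
    intro x y x' y' hx hy hx' hy' hxy hxy'
    obtain ⟨g, hg, hgx⟩ := hT x (F ∙ e) hx hP
    obtain ⟨g', hg', hgx'⟩ := hT x' (F ∙ e) hx' hP
    have h3 : im g y ≠ F ∙ e := by
      rw [← hgx]
      intro h
      exact hxy ((im_inj g).1 h).symm
    have h4 : im g' y' ≠ F ∙ e := by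
      rw [← hgx']
      intro h
      exact hxy' ((im_inj g').1 h).symm
    obtain ⟨k, hk, hk1, hk2⟩ := hkey (im g y) (im g' y') hy.im hy'.im h3 h4
    refine ⟨g'⁻¹ * k * g, K.mul_mem (K.mul_mem (K.inv_mem hg') hk) hg, ?_, ?_⟩
    · rw [im_mul, im_mul, hgx, hk1, im_inv_of_eq hgx']
    · rw [im_mul, im_mul, hk2, im_inv_im]
  · -- c | w - 1
    intro _
    exact hcw
  · -- ratios
    rintro P hP' r ⟨k, hk, hr⟩
    obtain ⟨x, hx, hxP⟩ := hT P (F ∙ e) hP' hP
    have h3 : Rat k P r := hr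
    have h4 := h3.conj x
    rw [hxP] at h4
    exact hcr _ (hKX (K.mul_mem (K.mul_mem hx hk) (K.inv_mem hx))) r h4
  · -- the elements of D
    intro d hd
    obtain ⟨C, _, rfl⟩ := Multiset.mem_map.1 hd
    refine ⟨hd2 _, hdq _, hn12 _, fun h => ?_⟩
    simp only at h
    have h3 : Nat.card (Nrm h2 X C.out.2.2) ∣ Nat.card X :=
      Subgroup.card_dvd_of_le (fun x hx => hx.1)
    rw [hnC, hdC, hN, h] at h3
    have h4 : (Nat.card F - 1) * (2 * dd C.out) ∣
        (Nat.card F - 1) * ((Nat.card F + 1) * w * c) := by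
      have e1 : (Nat.card F - 1) * (2 * dd C.out) = 2 * ((Nat.card F - 1) * dd C.out) := by ring
      have e2 : (Nat.card F - 1) * ((Nat.card F + 1) * w * c) =
          (Nat.card F + 1) * ((Nat.card F - 1) * w * c) := by ring
      rw [e1, e2]
      exact h3
    have h5 := Nat.dvd_of_mul_dvd_mul_left (by omega) h4
    exact (Dvd.intro _ rfl).trans h5
  · -- the equation
    refine final_arith (Nat.card F) w c n1 n2 _ (Nat.card X) _ hq hw1 hc1 hN hE1 hE2 hE3 ?_
    -- the number of elements without fixed points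
    have hcS : (Finset.univ.filter (fun g : V ≃ₗ[F] V => g ∈ X ∧ NS g)).card =
        Fintype.card S0t := (Fintype.card_subtype _).symm
    have hcl : ∀ C : Quotient R,
        (Finset.univ.filter (fun g : S0t => Quotient.mk R g = C)).card =
        (Finset.univ.filter (fun h : V ≃ₗ[F] V => h ∈ X ∧ NS h ∧
          ∃ x ∈ X, Commute (x⁻¹ * h * x) C.out.1)).card := by
      intro C
      refine Finset.card_bij (fun g _ => g.1) ?_ ?_ ?_
      · intro g hg
        rw [Finset.mem_filter] at hg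
        rw [Finset.mem_filter]
        refine ⟨Finset.mem_univ _, g.2.1, g.2.2, ?_⟩
        have h3 : Quotient.mk R C.out = Quotient.mk R g := by
          rw [hg.2]; exact Quotient.out_eq C
        exact Quotient.exact h3
      · intro a _ b _ hab
        exact Subtype.ext hab
      · intro h hh
        rw [Finset.mem_filter] at hh
        refine ⟨⟨h, hh.2.1, hh.2.2.1⟩, ?_, rfl⟩
        rw [Finset.mem_filter]
        refine ⟨Finset.mem_univ _, ?_⟩
        have h3 : R.r C.out ⟨h, hh.2.1, hh.2.2.1⟩ := hh.2.2.2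
        have h4 : Quotient.mk R C.out = Quotient.mk R ⟨h, hh.2.1, hh.2.2.1⟩ := Quotient.sound h3
        rw [← h4]
        exact Quotient.out_eq C
    have hsum : Fintype.card S0t = ∑ C : Quotient R,
        (Finset.univ.filter (fun g : S0t => Quotient.mk R g = C)).card := by
      rw [← Finset.card_univ]
      exact Finset.card_eq_sum_card_fiberwise (fun g _ => Finset.mem_univ _)
    rw [hcS, hsum]
    push_cast
    have hDs : (D.map fun d : ℕ × ℕ => (1 - 1 / (d.1 : ℚ)) / d.2).sum =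
        ∑ C : Quotient R, (1 - 1 / (dd C.out : ℚ)) / (nn C.out : ℚ) := by
      simp only [D, Multiset.map_map]
      rfl
    rw [hDs, Finset.mul_sum]
    refine Finset.sum_congr rfl (fun C _ => ?_)
    rw [hcl C]
    have h3 := class_card h2 C.out.2.1 C.out.2.2
    have h4 := hdN C.out
    rw [hnC, hdC] at h3
    set cc := (Finset.univ.filter (fun h : V ≃ₗ[F] V => h ∈ X ∧ NS h ∧
          ∃ x ∈ X, Commute (x⁻¹ * h * x) C.out.1)).card with hcc
    set tt := (Finset.univ.filter (fun t : V ≃ₗ[F] V => t ∈ X ∧ NS t ∧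
      Commute t C.out.1)).card with htt
    have hd0 : (dd C.out : ℚ) ≠ 0 := by
      have := hd2 C.out
      exact_mod_cast (by omega : dd C.out ≠ 0)
    have hn0 : (nn C.out : ℚ) ≠ 0 := by
      rcases hn12 C.out with h | h <;> rw [h] <;> norm_num
    obtain ⟨r, hr⟩ : ∃ r, Nat.card F = r + 1 := ⟨Nat.card F - 1, by omega⟩
    have hr0 : (r : ℚ) ≠ 0 := by exact_mod_cast (by omega : r ≠ 0)
    rw [hr, Nat.add_sub_cancel] at h3 h4
    have h3' : (cc : ℚ) * (nn C.out * (r * dd C.out)) = Nat.card X * tt := by exact_mod_cast h3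
    have h4' : (tt : ℚ) + r = r * dd C.out := by exact_mod_cast h4
    have h5 : (tt : ℚ) = r * (dd C.out - 1) := by linear_combination h4'
    rw [h5] at h3'
    have h6 : (cc : ℚ) * (nn C.out * dd C.out) = Nat.card X * (dd C.out - 1) := by
      have h7 : (r : ℚ) * ((cc : ℚ) * (nn C.out * dd C.out)) =
          r * (Nat.card X * (dd C.out - 1)) := by linear_combination h3'
      exact mul_left_cancel₀ hr0 h7
    have h8 : (Nat.card X : ℚ) * ((1 - 1 / (dd C.out : ℚ)) / (nn C.out : ℚ)) =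
        (Nat.card X * (dd C.out - 1)) / (nn C.out * dd C.out) := by
      field_simp
    rw [h8, ← h6]
    field_simp

end GL4.H30
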