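import Pool.Agent.Helper30.GL4.Geo2

/-!
# The stabiliser of a point of a two-dimensional space
-/

set_option autoImplicit false

namespace GL4.H30

open Module Submodule GL4

variable {F : Type} [Field F] {V : Type} [AddCommGroup V] [Module F V]

/-- scalars -/
noncomputable def sc : Fˣ →* (V ≃ₗ[F] V) := DistribMulAction.toModuleAut F V

@[simp] theorem sc_apply (a : Fˣ) (v : V) : (sc a : V ≃ₗ[F] V) v = (a : F) • v := rfl

/-- transvections -/
def Tv (f : Module.Dual F V) (e : V) (he : f e = 0) (s : F) : V ≃ₗ[F] V where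
  toFun v := v + (s * f v) • e
  invFun v := v - (s * f v) • e
  map_add' v w := by rw [map_add]; module
  map_smul' c v := by rw [map_smul]; simp only [smul_eq_mul, RingHom.id_apply]; module
  left_inv v := by simp only [map_add, map_smul, he]; simp
  right_inv v := by simp only [map_sub, map_smul, he]; simp

theorem Tv_apply (f : Module.Dual F V) (e : V) (he : f e = 0) (s : F) (v : V) :
    Tv f e he s v = v + (s * f v) • e := rfl

theorem Tv_add (f : Module.Dual F V) (e : V) (he : f e = 0) (s t : F) :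
    Tv f e he (s + t) = Tv f e he s * Tv f e he t := by
  apply LinearEquiv.ext
  intro v
  rw [LinearEquiv.mul_apply, Tv_apply, Tv_apply, Tv_apply]
  simp only [map_add, map_smul, he, smul_zero, add_zero]
  module

theorem Tv_zero (f : Module.Dual F V) (e : V) (he : f e = 0) : Tv f e he 0 = 1 := by
  apply LinearEquiv.ext
  intro v
  rw [Tv_apply]
  simp

theorem Tv_neg (f : Module.Dual F V) (e : V) (he : f e = 0) (s : F) :
    Tv f e he (-s) = (Tv f e he s)⁻¹ := by
  rw [eq_inv_iff_mul_eq_one, ← Tv_add, neg_add_cancel, Tv_zero]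

/-- the additive group of the transvections in `X` -/
def Aset (X : Subgroup (V ≃ₗ[F] V)) (f : Module.Dual F V) (e : V) (he : f e = 0) :
    AddSubgroup F where
  carrier := {s | Tv f e he s ∈ X}
  add_mem' := by
    intro s t hs ht
    show Tv f e he (s + t) ∈ X
    rw [Tv_add]
    exact X.mul_mem hs ht
  zero_mem' := by
    show Tv f e he 0 ∈ X
    rw [Tv_zero]
    exact X.one_mem
  neg_mem' := by
    intro s hs
    show Tv f e he (-s) ∈ X
    rw [Tv_neg]
    exact X.inv_mem hs

theorem mem_Aset {X : Subgroup (V ≃ₗ[F] V)} {f : Module.Dual F V} {e : V} {he : f e = 0} {s : F} :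
    s ∈ Aset X f e he ↔ Tv f e he s ∈ X := Iff.rfl

/-- a product in which stabilisers are trivial -/
theorem card_dvd_of_free {G α : Type} [Group G] [MulAction G α] [Finite G] [Finite α]
    (h : ∀ b : α, MulAction.stabilizer G b = ⊥) : Nat.card G ∣ Nat.card α := by
  rw [Nat.card_congr (MulAction.selfEquivOrbitsQuotientProd h), Nat.card_prod]
  exact Dvd.intro_left _ rfl

section two

variable (h2 : finrank F V = 2)
include h2

/-- the ratio, as a homomorphism -/
noncomputable def rh {P : Submodule F V} (hP : Pt P) (H : Subgroup (V ≃ₗ[F] V))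
    (hH : ∀ g ∈ H, im g P = P) : H →* Fˣ :=
  MonoidHom.mk' (fun g => Units.mk0 (exists_rat h2 hP (hH g.1 g.2)).choose
      (Rat.ne_zero hP (exists_rat h2 hP (hH g.1 g.2)).choose_spec)) (by
    intro g g'
    apply Units.ext
    have h3 := (exists_rat h2 hP (hH g.1 g.2)).choose_spec
    have h4 := (exists_rat h2 hP (hH g'.1 g'.2)).choose_spec
    have h5 := (exists_rat h2 hP (hH (g * g').1 (g * g').2)).choose_spec
    exact Rat.unique h2 hP h5 (h3.mul h4))

theorem rh_spec {P : Submodule F V} (hP : Pt P) (H : Subgroup (V ≃ₗ[F] V))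
    (hH : ∀ g ∈ H, im g P = P) (g : H) : Rat g.1 P (rh h2 hP H hH g : F) :=
  (exists_rat h2 hP (hH g.1 g.2)).choose_spec

theorem rh_eq {P : Submodule F V} (hP : Pt P) (H : Subgroup (V ≃ₗ[F] V))
    (hH : ∀ g ∈ H, im g P = P) (g : H) {r : F} (h : Rat g.1 P r) :
    (rh h2 hP H hH g : F) = r := Rat.unique h2 hP (rh_spec h2 hP H hH g) h

omit h2 in
/-- conjugation of a transvection -/
theorem Tv_conj (f : Module.Dual F V) (e : V) (he : f e = 0) {P : Submodule F V}
    (hPf : P = LinearMap.ker f) (heP : e ∈ P) {g : V ≃ₗ[F] V} {r : F} (hg : Rat g P r) (s : F) :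
    g * Tv f e he s * g⁻¹ = Tv f e he (r * s) := by
  obtain ⟨a, b, hb, h1, h3, rfl⟩ := hg
  apply LinearEquiv.ext
  intro v
  obtain ⟨w, rfl⟩ : ∃ w, g w = v := ⟨g⁻¹ v, apply_inv_apply g v⟩
  rw [conj_apply, Tv_apply, Tv_apply, map_add, map_smul, h1 e heP]
  have h4 : f (g w) = b * f w := by
    have h5 := h3 w
    rw [hPf, LinearMap.mem_ker, map_sub, map_smul, smul_eq_mul, sub_eq_zero] at h5
    exact h5
  rw [h4, smul_smul]
  congr 2
  field_simp

/-- the elements of `X` with ratio one at `P`: scalars times transvections -/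
theorem card_rat_one [Finite F] {X : Subgroup (V ≃ₗ[F] V)} (hZ : ∀ a : Fˣ, (sc a : V ≃ₗ[F] V) ∈ X)
    {f : Module.Dual F V} {e u : V} (he : f e = 0) (he0 : e ≠ 0) (hu : f u = 1)
    (hPf : (F ∙ e) = LinearMap.ker f) :
    Nat.card {g : V ≃ₗ[F] V // g ∈ X ∧ Rat g (F ∙ e) 1} =
      (Nat.card F - 1) * Nat.card (Aset X f e he) := by
  have h3 : Nat.card Fˣ = Nat.card F - 1 := by
    have := Fintype.ofFinite F
    rw [Nat.card_units]
  rw [← h3, ← Nat.card_prod]
  symm
  have hTrat : ∀ s : F, Rat (Tv f e he s) (F ∙ e) 1 := by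
    intro s
    refine ⟨1, 1, one_ne_zero, fun v hv => ?_, fun v => ?_, by simp⟩
    · rw [hPf, LinearMap.mem_ker] at hv
      rw [Tv_apply, hv]
      simp
    · rw [Tv_apply, one_smul, add_sub_cancel_left]
      exact smul_mem _ _ (mem_span_singleton_self e)
  refine Nat.card_congr (Equiv.ofBijective (fun x : Fˣ × Aset X f e he =>
    (⟨sc x.1 * Tv f e he x.2.1, X.mul_mem (hZ _) x.2.2, ?_⟩ :
      {g : V ≃ₗ[F] V // g ∈ X ∧ Rat g (F ∙ e) 1})) ⟨?_, ?_⟩)
  · have h4 : Rat (sc x.1 : V ≃ₗ[F] V) (F ∙ e) 1 := Sc.rat ⟨(x.1 : F), fun v => rfl⟩ (pt_span he0)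
    have := h4.mul (hTrat x.2.1)
    rwa [mul_one] at this
  · rintro ⟨a, s⟩ ⟨b, t⟩ hab
    have hab' : (sc a * Tv f e he s.1 : V ≃ₗ[F] V) = sc b * Tv f e he t.1 := congrArg Subtype.val hab
    have h5 := DFunLike.congr_fun hab' e
    rw [LinearEquiv.mul_apply, LinearEquiv.mul_apply, Tv_apply, Tv_apply, he, mul_zero, mul_zero,
      zero_smul, add_zero, sc_apply, sc_apply] at h5
    have h6 : (a : F) = b := smul_left_injective F he0 h5
    have h6' : a = b := Units.ext h6
    subst h6'
    have h7 : Tv f e he s.1 = Tv f e he t.1 := mul_left_cancel hab'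
    have h8 := DFunLike.congr_fun h7 u
    rw [Tv_apply, Tv_apply, hu, mul_one, mul_one] at h8
    have h9 : s.1 = t.1 := smul_left_injective F he0 (add_left_cancel h8)
    rw [Subtype.ext h9]
  · rintro ⟨g, hgX, a, b, hb, h1, h4, hab⟩
    have hab' : a = b := by
      rw [eq_div_iff hb, one_mul] at hab
      exact hab.symm
    subst hab'
    obtain ⟨s, hs⟩ := mem_span_singleton.1 (h4 u)
    have hgeq : g = sc (Units.mk0 a hb) * Tv f e he (s / a) := by
      apply LinearEquiv.ext
      intro v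
      rw [LinearEquiv.mul_apply, sc_apply, Tv_apply]
      have h5 : v - f v • u ∈ F ∙ e := by
        rw [hPf, LinearMap.mem_ker, map_sub, map_smul, hu, smul_eq_mul, mul_one, sub_self]
      have h6 := h1 _ h5
      have h7 : g v = a • (v - f v • u) + f v • (a • u + s • e) := by
        rw [← h6, hs]
        simp only [map_sub, map_smul]
        module
      rw [h7]
      simp only [Units.val_mk0]
      have h8 : a * (s / a * f v) = f v * s := by field_simp
      have h9 : a • (v + (s / a * f v) • e) = a • v + (a * (s / a * f v)) • e := by module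
      rw [h9, h8]
      module
    have hT : Tv f e he (s / a) ∈ X := by
      have h5 : Tv f e he (s / a) = (sc (Units.mk0 a hb))⁻¹ * g := by
        rw [hgeq, inv_mul_cancel_left]
      rw [h5]
      exact X.mul_mem (X.inv_mem (hZ _)) hgX
    exact ⟨(Units.mk0 a hb, ⟨s / a, hT⟩), Subtype.ext hgeq.symm⟩

/-- everything about the stabiliser of the point `P` -/
theorem stab_facts [Finite F] {X : Subgroup (V ≃ₗ[F] V)} (hZ : ∀ a : Fˣ, (sc a : V ≃ₗ[F] V) ∈ X)
    {f : Module.Dual F V} {e u : V} (he : f e = 0) (he0 : e ≠ 0) (hu : f u = 1)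
    (hPf : (F ∙ e) = LinearMap.ker f) :
    ∃ c : ℕ, 1 ≤ c ∧ c ∣ Nat.card F - 1 ∧
      Nat.card {g : V ≃ₗ[F] V // g ∈ X ∧ im g (F ∙ e) = F ∙ e} =
        (Nat.card F - 1) * Nat.card (Aset X f e he) * c ∧
      c ∣ Nat.card (Aset X f e he) - 1 ∧
      ∀ g ∈ X, ∀ r, Rat g (F ∙ e) r → r ^ c = 1 := by
  classical
  have hfin : FiniteDimensional F V := FiniteDimensional.of_finrank_pos (by omega)
  have hP : Pt (F ∙ e) := pt_span he0
  let H : Subgroup (V ≃ₗ[F] V) :=
    { carrier := {g | g ∈ X ∧ im g (F ∙ e) = F ∙ e}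
      mul_mem' := by
        rintro g h ⟨hg, hg'⟩ ⟨hh, hh'⟩
        exact ⟨X.mul_mem hg hh, by rw [im_mul, hh', hg']⟩
      one_mem' := ⟨X.one_mem, im_one _⟩
      inv_mem' := by
        rintro g ⟨hg, hg'⟩
        exact ⟨X.inv_mem hg, im_inv_of_eq hg'⟩ }
  have hH : ∀ g ∈ H, im g (F ∙ e) = F ∙ e := fun g hg => hg.2
  let ρ : H →* Fˣ := rh h2 hP H hH
  have hspec : ∀ g : H, Rat g.1 (F ∙ e) (ρ g : F) := rh_spec h2 hP H hH
  have heq : ∀ (g : H) {r : F}, Rat g.1 (F ∙ e) r → (ρ g : F) = r := fun g r h =>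
    rh_eq h2 hP H hH g h
  have hcardu : Nat.card Fˣ = Nat.card F - 1 := by
    have := Fintype.ofFinite F
    rw [Nat.card_units]
  refine ⟨Nat.card ρ.range, Nat.card_pos, ?_, ?_, ?_, ?_⟩
  · rw [← hcardu]
    exact Subgroup.card_subgroup_dvd_card ρ.range
  · have h3 : Nat.card {g : V ≃ₗ[F] V // g ∈ X ∧ im g (F ∙ e) = F ∙ e} = Nat.card H := rfl
    have h4 : Nat.card ρ.ker = Nat.card {g : V ≃ₗ[F] V // g ∈ X ∧ Rat g (F ∙ e) 1} := by
      refine Nat.card_congr ⟨fun g => ⟨g.1.1, g.1.2.1, ?_⟩, fun g => ⟨⟨g.1, g.2.1, g.2.2.im_eq hP⟩, ?_⟩,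
        fun g => rfl, fun g => rfl⟩
      · have h5 := hspec g.1
        have h6 : ρ g.1 = 1 := g.2
        rw [h6] at h5
        exact h5
      · rw [MonoidHom.mem_ker]
        apply Units.ext
        exact heq _ g.2.2
    have h5 := Subgroup.card_eq_card_quotient_mul_card_subgroup ρ.ker
    rw [Nat.card_congr (QuotientGroup.quotientKerEquivRange ρ).toEquiv] at h5
    rw [h3, h5, h4, card_rat_one h2 hZ he he0 hu hPf]
    ring
  · -- free action of the range on the nonzero elements
    let S : Type := {s : F // s ≠ 0 ∧ s ∈ Aset X f e he}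
    letI : MulAction ρ.range S :=
      { smul := fun r s => ⟨(r.1 : F) * s.1, mul_ne_zero (Units.ne_zero _) s.2.1, by
          obtain ⟨r, g, rfl⟩ := r
          have h3 := Tv_conj f e he hPf (mem_span_singleton_self e) (hspec g) s.1
          show Tv f e he ((ρ g : F) * s.1) ∈ X
          rw [← h3]
          exact X.mul_mem (X.mul_mem g.2.1 s.2.2) (X.inv_mem g.2.1)⟩
        one_smul := fun s => Subtype.ext (one_mul s.1)
        mul_smul := fun a b s => Subtype.ext (mul_assoc (a.1 : F) (b.1 : F) s.1) }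
    have hfree : ∀ s : S, MulAction.stabilizer ρ.range s = ⊥ := by
      intro s
      rw [Subgroup.eq_bot_iff_forall]
      intro r hr
      rw [MulAction.mem_stabilizer_iff] at hr
      have h3 : (r.1 : F) * s.1 = s.1 := congrArg Subtype.val hr
      have h4 : (r.1 : F) = 1 := (mul_eq_right₀ s.2.1).1 h3
      apply Subtype.ext
      apply Units.ext
      exact h4
    have h3 := card_dvd_of_free hfree
    have h4 : Nat.card S = Nat.card (Aset X f e he) - 1 := by
      have h5 : Nat.card S = Nat.card {s : Aset X f e he // s ≠ 0} := by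
        refine Nat.card_congr ⟨fun s => ⟨⟨s.1, s.2.2⟩, fun h => s.2.1 (congrArg Subtype.val h)⟩,
          fun s => ⟨s.1.1, fun h => s.2 (Subtype.ext h), s.1.2⟩, fun s => rfl, fun s => rfl⟩
      rw [h5]
      have := Fintype.ofFinite (Aset X f e he)
      rw [Nat.card_eq_fintype_card, Nat.card_eq_fintype_card]
      have h6 := Fintype.card_subtype_compl (fun s : Aset X f e he => s = 0)
      rw [Fintype.card_subtype_eq] at h6
      convert h6
    rw [← h4]
    exact h3
  · intro g hg r hr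
    have h3 : g ∈ H := ⟨hg, hr.im_eq hP⟩
    have h4 := heq ⟨g, h3⟩ hr
    have h5 : (⟨ρ ⟨g, h3⟩, ⟨g, h3⟩, rfl⟩ : ρ.range) ^ Nat.card ρ.range = 1 := pow_card_eq_one'
    have h6 : (ρ ⟨g, h3⟩) ^ Nat.card ρ.range = 1 := congrArg Subtype.val h5
    have h7 := congrArg Units.val h6
    rw [Units.val_pow_eq_pow_val, h4] at h7
    exact h7

end two

end GL4.H30
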